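import Pool.Agent.Helper71.E5.Stmts

set_option autoImplicit false

open scoped MeasureTheory ENNReal Topology
open Complex

namespace E5.H35

theorem mem_K {n : ℕ} (c : Fin n → ℂ) (z : ℂ) : z ∈ AX.K 1 c ↔ ∀ i, dist z (c i) ≤ 1 := by
  unfold AX.K
  simp [Metric.mem_closedBall]

theorem mem_Kr {n : ℕ} (r : ℝ) (c : Fin n → ℂ) (z : ℂ) : z ∈ AX.K r c ↔ ∀ i, dist z (c i) ≤ r := by
  unfold AX.K
  simp [Metric.mem_closedBall]

theorem K_closed {n : ℕ} (c : Fin n → ℂ) : IsClosed (AX.K 1 c) :=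
  isClosed_iInter fun _ => Metric.isClosed_closedBall

theorem K_convex {n : ℕ} (c : Fin n → ℂ) : Convex ℝ (AX.K 1 c) :=
  convex_iInter fun _ => convex_closedBall _ _

theorem norm_e (θ : ℝ) : ‖AX.e θ‖ = 1 := by
  unfold AX.e
  exact Complex.norm_exp_ofReal_mul_I θ

theorem mem_T {n : ℕ} (c : Fin n → ℂ) (i : Fin n) (θ : ℝ) :
    θ ∈ AX.T 1 c i ↔ c i + AX.e θ ∈ AX.K 1 c := by
  unfold AX.T
  simp

/-- Points of a ball inside. -/
theorem ball_le {n : ℕ} {c : Fin n → ℂ} {z : ℂ} {ε : ℝ} (hε : 0 < ε)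
    (h : Metric.ball z ε ⊆ AX.K 1 c) (i : Fin n) : dist z (c i) ≤ 1 - ε / 2 := by
  set u : ℂ := z - c i with hu
  obtain ⟨w, hw, hw2⟩ : ∃ w : ℂ, ‖w‖ = ε / 2 ∧ ‖u + w‖ = ‖u‖ + ε / 2 := by
    by_cases h0 : u = 0
    · refine ⟨((ε / 2 : ℝ) : ℂ), ?_, ?_⟩
      · rw [Complex.norm_real, Real.norm_of_nonneg (by linarith)]
      · rw [h0, zero_add, norm_zero, zero_add, Complex.norm_real, Real.norm_of_nonneg (by linarith)]
    · have hn : 0 < ‖u‖ := norm_pos_iff.2 h0
      refine ⟨((ε / 2 / ‖u‖ : ℝ) : ℂ) * u, ?_, ?_⟩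
      · rw [norm_mul, Complex.norm_real, Real.norm_of_nonneg (by positivity)]
        field_simp
      · have e1 : u + ((ε / 2 / ‖u‖ : ℝ) : ℂ) * u = ((1 + ε / 2 / ‖u‖ : ℝ) : ℂ) * u := by
          push_cast
          ring
        rw [e1, norm_mul, Complex.norm_real, Real.norm_of_nonneg (by positivity)]
        field_simp
  have h1 : z + w ∈ Metric.ball z ε := by
    rw [Metric.mem_ball, dist_eq_norm]
    simp only [add_sub_cancel_left]
    rw [hw]
    linarith
  have h2 := (mem_K c _).1 (h h1) i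
  rw [dist_eq_norm] at h2 ⊢
  have e2 : z + w - c i = u + w := by rw [hu]; ring
  rw [e2, hw2] at h2
  rw [← hu]
  linarith

/-- An interior point is at distance less than one. -/
theorem int_lt {n : ℕ} {c : Fin n → ℂ} {z : ℂ} (h : z ∈ interior (AX.K 1 c)) (i : Fin n) :
    dist z (c i) < 1 := by
  obtain ⟨ε, hε, hb⟩ := Metric.isOpen_iff.1 isOpen_interior z h
  have := ball_le hε (hb.trans interior_subset) i
  linarith

/-- Points at distance less than one are interior. -/
theorem lt_int {n : ℕ} {c : Fin n → ℂ} {z : ℂ} (h : ∀ i, dist z (c i) < 1) :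
    z ∈ interior (AX.K 1 c) := by
  rw [mem_interior]
  refine ⟨⋂ i, Metric.ball (c i) 1, ?_, isOpen_iInter_of_finite fun i => Metric.isOpen_ball, ?_⟩
  · intro x hx
    rw [mem_K]
    intro i
    exact (Metric.mem_ball.1 (Set.mem_iInter.1 hx i)).le
  · rw [Set.mem_iInter]
    intro i
    exact Metric.mem_ball.2 (h i)

theorem mid_lt {x y a : ℂ} (hxy : x ≠ y) (hx : dist x a ≤ 1) (hy : dist y a ≤ 1) :
    dist ((x + y) / 2) a < 1 := by
  rw [dist_eq_norm] at *
  have e1 : (x + y) / 2 - a = ((x - a) + (y - a)) / 2 := by ring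
  have h1 := parallelogram_law_with_norm ℝ (x - a) (y - a)
  have h2 : 0 < ‖(x - a) - (y - a)‖ := by
    rw [norm_pos_iff]
    intro h
    apply hxy
    have : x - y = 0 := by linear_combination h
    exact sub_eq_zero.1 this
  have h3 : ‖(x - a) + (y - a)‖ < 2 := by
    by_contra hcon
    push Not at hcon
    have a1 := norm_nonneg (x - a)
    have a2 := norm_nonneg (y - a)
    nlinarith
  rw [e1, norm_div]
  have : ‖(2 : ℂ)‖ = 2 := by simp
  rw [this]
  linarith

theorem per_nonneg {n : ℕ} (c : Fin n → ℂ) : 0 ≤ per c := ENNReal.toReal_nonneg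

/-- The perimeter vanishes if there are no interior points. -/
theorem per_zero {n : ℕ} {c : Fin n → ℂ} (h : ¬ (interior (AX.K 1 c)).Nonempty) : per c = 0 := by
  have h1 : (AX.K 1 c).Subsingleton := by
    intro x hx y hy
    by_contra hxy
    exact h ⟨(x + y) / 2, lt_int fun i => mid_lt hxy ((mem_K c x).1 hx i) ((mem_K c y).1 hy i)⟩
  have h2 : (frontier (AX.K 1 c)).Subsingleton :=
    h1.anti (frontier_subset_closure.trans (K_closed c).closure_eq.subset)
  unfold per
  have : MeasureTheory.NullSingletonClass (μH[1] : MeasureTheory.Measure ℂ) :=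
    MeasureTheory.Measure.nullSingletonClass_hausdorff ℂ one_pos
  rw [h2.measure_zero]
  rfl

end E5.H35
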