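import Pool.Agent.Helper35.E5.INT

set_option autoImplicit false

open scoped MeasureTheory ENNReal Topology
open Complex

namespace E5

namespace H35

theorem per_K_empty {n : ℕ} {c : Fin n → ℂ} (h : ¬ (AX.K 1 c).Nonempty) : per c = 0 :=
  per_zero fun h1 => h (h1.mono interior_subset)

theorem per_shift (hI : ST_PISO) {n : ℕ} (c : Fin n → ℂ) (x : ℂ) :
    per (fun i => c i - x) = per c := by
  have := hI n c (IsometryEquiv.subRight x)
  simpa using this

/-- Pairs in the unit balls. -/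
def CC (n : ℕ) : Set ((Fin n → ℂ) × (Fin n → ℂ)) :=
  {pq | Ctr pq.1 pq.2 ∧ (∀ i, ‖pq.1 i‖ ≤ 1) ∧ ∀ i, ‖pq.2 i‖ ≤ 1}

theorem compC (n : ℕ) : IsCompact (CC n) := by
  refine Metric.isCompact_of_isClosed_isBounded ?_ ?_
  · have h1 : IsClosed {pq : (Fin n → ℂ) × (Fin n → ℂ) | Ctr pq.1 pq.2} := by
      unfold Ctr
      simp only [Set.ofPred_forall]
      refine isClosed_iInter fun i => isClosed_iInter fun j => isClosed_le ?_ ?_
      · fun_prop
      · fun_prop
    have h2 : IsClosed {pq : (Fin n → ℂ) × (Fin n → ℂ) | ∀ i, ‖pq.1 i‖ ≤ 1} := by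
      simp only [Set.ofPred_forall]
      refine isClosed_iInter fun i => isClosed_le ?_ continuous_const
      fun_prop
    have h3 : IsClosed {pq : (Fin n → ℂ) × (Fin n → ℂ) | ∀ i, ‖pq.2 i‖ ≤ 1} := by
      simp only [Set.ofPred_forall]
      refine isClosed_iInter fun i => isClosed_le ?_ continuous_const
      fun_prop
    exact h1.inter (h2.inter h3)
  · refine (Metric.isBounded_closedBall (x := (0 : (Fin n → ℂ) × (Fin n → ℂ)))
      (r := 1)).subset ?_
    rintro ⟨p, q⟩ ⟨_, h2, h3⟩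
    rw [Metric.mem_closedBall, dist_zero_right, Prod.norm_def]
    refine max_le ?_ ?_
    · exact (pi_norm_le_iff_of_nonneg zero_le_one).2 h2
    · exact (pi_norm_le_iff_of_nonneg zero_le_one).2 h3

/-- Translation into the compact set. -/
theorem normal (hI : ST_PISO) (hK : AX.ST_KIRS) {n : ℕ} {p q : Fin n → ℂ} (hc : Ctr p q)
    (hpos : 0 < per p) : ∃ p' q' : Fin n → ℂ, Ctr p' q' ∧ (∀ i, ‖p' i‖ ≤ 1) ∧ (∀ i, ‖q' i‖ ≤ 1) ∧
      per p' = per p ∧ per q' = per q := by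
  have h1 : (AX.K 1 p).Nonempty := by
    by_contra h
    have := per_K_empty h
    linarith
  obtain ⟨y, hy⟩ := hK n 1 p q hc h1
  obtain ⟨x, hx⟩ := h1
  rw [mem_K] at hx hy
  refine ⟨fun i => p i - x, fun i => q i - y, fun i j => ?_, fun i => ?_, fun i => ?_,
    per_shift hI p x, per_shift hI q y⟩
  · rw [dist_sub_right, dist_sub_right]
    exact hc i j
  · have := hx i
    rwa [dist_comm, dist_eq_norm] at this
  · have := hy i
    rwa [dist_comm, dist_eq_norm] at this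

end H35

open H35

theorem EX (hC : ST_PCONT) (hI : ST_PISO) (hK : AX.ST_KIRS) : ST_EX := by
  intro n hA
  unfold Alex at hA
  push Not at hA
  obtain ⟨p0, q0, hc0, h0⟩ := hA
  obtain ⟨p1, q1, hc1, hp1, hq1, e1, e2⟩ := normal hI hK hc0 ((per_nonneg q0).trans_lt h0)
  have hcont : Continuous (fun pq : (Fin n → ℂ) × (Fin n → ℂ) => per pq.1 - per pq.2) :=
    ((hC n).comp continuous_fst).sub ((hC n).comp continuous_snd)
  have hne : (CC n).Nonempty := ⟨(p1, q1), hc1, hp1, hq1⟩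
  obtain ⟨pq, hpqm, hmax0⟩ := (compC n).exists_isMaxOn hne hcont.continuousOn
  obtain ⟨p, q⟩ := pq
  have hc : Ctr p q := hpqm.1
  have hmax : ∀ p' q' : Fin n → ℂ, Ctr p' q' → (∀ i, ‖p' i‖ ≤ 1) → (∀ i, ‖q' i‖ ≤ 1) →
      per p' - per q' ≤ per p - per q := fun p' q' h1 h2 h3 =>
    isMaxOn_iff.1 hmax0 (p', q') ⟨h1, h2, h3⟩
  have hpq := hmax p1 q1 hc1 hp1 hq1
  refine ⟨p, q, ⟨hc, by rw [e1, e2] at hpq; linarith, fun p' q' hc' => ?_⟩⟩
  by_cases hpos : 0 < per p'
  · obtain ⟨p2, q2, hc2, hp2, hq2, f1, f2⟩ := normal hI hK hc' hpos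
    rw [← f1, ← f2]
    exact hmax p2 q2 hc2 hp2 hq2
  · rw [e1, e2] at hpq
    have := per_nonneg q'
    linarith

end E5
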