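import Pool.Agent.Helper35.E5.SLACK

set_option autoImplicit false

open scoped MeasureTheory ENNReal Topology
open Complex

namespace E5

open H35

theorem FLAT (hKKT : ST_KKT) (hCG : ST_CGPOS) : ST_FLAT := by
  intro n p q M gp ap bp gq aq bq hM hp hq hfat i
  by_contra hi
  have hfin : (Set.range (fun k => p (gp k))).Finite :=
    (Set.finite_range p).subset (by
      rintro _ ⟨k, rfl⟩
      exact ⟨gp k, rfl⟩)
  have hcl : IsClosed (convexHull ℝ (Set.range (fun k => p (gp k)))) :=
    hfin.isClosed_convexHull (𝕜 := ℝ)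
  obtain ⟨f, u, hf1, hf2⟩ := geometric_hahn_banach_closed_point
    (convex_convexHull ℝ (Set.range (fun k => p (gp k)))) hcl hi
  -- the direction
  set ν : ℂ := ((f 1 : ℝ) : ℂ) + ((f I : ℝ) : ℂ) * I with hν
  have hfv : ∀ z : ℂ, f z = (z * (starRingEnd ℂ) ν).re := by
    intro z
    have e1 : z = (z.re : ℝ) • (1 : ℂ) + (z.im : ℝ) • I := by
      apply Complex.ext <;> simp
    have e2 : f z = z.re * f 1 + z.im * f I := by
      conv_lhs => rw [e1]
      rw [map_add, map_smul, map_smul, smul_eq_mul, smul_eq_mul]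
    rw [e2, hν]
    simp
  -- the extreme index
  have hne : Nonempty (Fin n) := ⟨i⟩
  obtain ⟨k, hk⟩ := Finite.exists_max (fun j => f (p j))
  have hku : u < f (p k) := hf2.trans_le (hk i)
  have hkT : AX.T 1 p k = ∅ := by
    by_contra hT
    obtain ⟨l, hl⟩ := hp.cov k (Set.nonempty_iff_ne_empty.2 hT)
    have h1 := hf1 (p k) (subset_convexHull ℝ _ ⟨l, by simp only; rw [hl]⟩)
    linarith
  have hν0 : ν ≠ 0 := by
    intro h0
    obtain ⟨l, hl⟩ : ∃ l, l = gp 0 := ⟨_, rfl⟩
    have h1 := hf1 (p (gp 0)) (subset_convexHull ℝ _ ⟨0, rfl⟩)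
    rw [hfv, h0] at h1
    rw [hfv, h0] at hku
    simp at h1 hku
    linarith
  -- small moves
  have hev := SLACK n p M gp ap bp k ν hp hkT
  have hev2 : ∀ᶠ s : ℝ in 𝓝[>] (0 : ℝ),
      HD (Function.update p k (p k + (s : ℂ) * ν)) M gp ap bp ∧
        per (Function.update p k (p k + (s : ℂ) * ν)) = per p := hev.filter_mono nhdsWithin_le_nhds
  obtain ⟨s, ⟨hHD, hper⟩, hs⟩ := (hev2.and self_mem_nhdsWithin).exists
  have hs0 : 0 < s := hs
  set p' := Function.update p k (p k + (s : ℂ) * ν) with hp'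
  have hkk : p' k = p k + (s : ℂ) * ν := Function.update_self _ _ _
  have hother : ∀ j, j ≠ k → p' j = p j := fun j hj => Function.update_of_ne hj _ _
  have hgrow : ∀ j, j ≠ k → dist (p k) (p j) < dist (p' k) (p' j) := by
    intro j hj
    rw [hkk, hother j hj, dist_eq_norm, dist_eq_norm]
    have e1 : p k + (s : ℂ) * ν - p j = (p k - p j) + (s : ℂ) * ν := by ring
    rw [e1]
    have h1 : ‖(p k - p j) + (s : ℂ) * ν‖ ^ 2 = ‖p k - p j‖ ^ 2 +
        2 * s * ((p k - p j) * (starRingEnd ℂ) ν).re + s ^ 2 * ‖ν‖ ^ 2 := by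
      rw [← Complex.normSq_eq_norm_sq, ← Complex.normSq_eq_norm_sq, ← Complex.normSq_eq_norm_sq,
        Complex.normSq_add]
      simp [Complex.normSq_mul]
      ring
    have h2 : 0 ≤ ((p k - p j) * (starRingEnd ℂ) ν).re := by
      rw [← hfv, map_sub]
      have := hk j
      linarith
    have h3 : 0 < s ^ 2 * ‖ν‖ ^ 2 := by
      have : 0 < ‖ν‖ := norm_pos_iff.2 hν0
      positivity
    have h4 : ‖p k - p j‖ ^ 2 < ‖(p k - p j) + (s : ℂ) * ν‖ ^ 2 := by
      rw [h1]
      have : 0 ≤ 2 * s * ((p k - p j) * (starRingEnd ℂ) ν).re := by positivity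
      linarith
    exact lt_of_pow_lt_pow_left₀ 2 (norm_nonneg _) h4
  have hctr : Ctr p' q := by
    intro a b
    by_cases ha : a = k
    · by_cases hb : b = k
      · rw [ha, hb]; simp
      · rw [ha]
        exact (hM.ctr k b).trans (hgrow b hb).le
    · by_cases hb : b = k
      · rw [hb, dist_comm (q a), dist_comm (p' a)]
        exact (hM.ctr k a).trans (hgrow a ha).le
      · rw [hother a ha, hother b hb]
        exact hM.ctr a b
  have hM' : MaxPair p' q := ⟨hctr, by rw [hper]; exact hM.pos, fun a b hab => by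
    rw [hper]; exact hM.max a b hab⟩
  obtain ⟨W, θ, hC⟩ := hKKT n p' q M gp ap bp gq aq bq hM' hHD hq hfat
  refine hCG n q gq aq bq hq hfat k ?_
  rw [← hC.eqq k]
  refine Finset.sum_eq_zero fun j _ => ?_
  by_cases hj : j = k
  · rw [hj]; simp
  · have h1 : W k j = 0 := by
      by_contra h0
      have h2 := hC.comp k j h0
      have h3 := hM.ctr k j
      have h4 := hgrow j hj
      linarith
    rw [h1]
    simp

end E5
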