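import Pool.Agent.Helper35.E5.INT

set_option autoImplicit false

open scoped MeasureTheory ENNReal Topology
open Complex

namespace E5

namespace H35

theorem K_drop {n : ℕ} (c : Fin (n + 2) → ℂ) (i : Fin (n + 2)) :
    AX.K 1 c ⊆ AX.K 1 (fun j => c (i.succAbove j)) := by
  intro x hx
  rw [mem_K] at hx ⊢
  exact fun j => hx _

theorem K_drop_eq {n : ℕ} {c : Fin (n + 2) → ℂ} {i : Fin (n + 2)}
    (h : ∀ x ∈ AX.K 1 (fun j => c (i.succAbove j)), dist x (c i) ≤ 1) :
    AX.K 1 (fun j => c (i.succAbove j)) = AX.K 1 c := by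
  refine Set.Subset.antisymm (fun x hx => ?_) (K_drop c i)
  rw [mem_K]
  intro j
  rcases Fin.eq_self_or_eq_succAbove i j with rfl | ⟨k, rfl⟩
  · exact h x hx
  · exact (mem_K _ x).1 hx k

theorem no_drop (hM : ST_PMONO) {n : ℕ} (hA : Alex (n + 1)) {p q : Fin (n + 2) → ℂ}
    (h : MaxPair p q) (i : Fin (n + 2)) :
    AX.K 1 (fun j => q (i.succAbove j)) ≠ AX.K 1 q := by
  intro he
  have h1 := hM (n + 1) n p (fun j => p (i.succAbove j)) (K_drop p i)
  have h2 := hA (fun j => p (i.succAbove j)) (fun j => q (i.succAbove j)) (fun j k => h.ctr _ _)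
  have h3 : per (fun j => q (i.succAbove j)) = per q := by
    unfold per
    rw [he]
  have h4 := h.pos
  linarith

/-- A point of the circle `a` inside an open set gives an arc. -/
theorem arc_of_open {a z : ℂ} {U : Set ℂ} (hU : IsOpen U) (hz : z ∈ U) (hd : dist z a = 1) :
    ∃ s t : ℝ, s < t ∧ ∀ θ ∈ Set.Icc s t, a + AX.e θ ∈ U := by
  have h1 : ‖z - a‖ = 1 := by rw [← dist_eq_norm]; exact hd
  have h2 : a + AX.e (Complex.arg (z - a)) = z := by
    unfold AX.e
    have h3 := Complex.norm_mul_exp_arg_mul_I (z - a)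
    rw [h1] at h3
    simp only [Complex.ofReal_one, one_mul] at h3
    rw [h3]
    ring
  have hc : Continuous (fun θ : ℝ => a + AX.e θ) := by
    unfold AX.e
    fun_prop
  have ho : IsOpen ((fun θ : ℝ => a + AX.e θ) ⁻¹' U) := hU.preimage hc
  have hm : Complex.arg (z - a) ∈ (fun θ : ℝ => a + AX.e θ) ⁻¹' U := by
    rw [Set.mem_preimage, h2]
    exact hz
  obtain ⟨ε, hε, hb⟩ := Metric.isOpen_iff.1 ho _ hm
  refine ⟨Complex.arg (z - a), Complex.arg (z - a) + ε / 2, by linarith, fun θ hθ => hb ?_⟩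
  rw [Metric.mem_ball, Real.dist_eq, abs_of_nonneg (by linarith [hθ.1])]
  linarith [hθ.2]

end H35

open H35

theorem FULL (hK : AX.ST_KIRS) (hM : ST_PMONO) : ST_FULL := by
  intro n hA p q h
  have hnd := no_drop hM hA h
  refine ⟨fun i j hij => ?_, fun i => ?_⟩
  · by_contra hne
    refine hnd i (K_drop_eq fun x hx => ?_)
    rcases Fin.eq_self_or_eq_succAbove i j with rfl | ⟨k, rfl⟩
    · exact absurd rfl hne
    · rw [hij]
      exact (mem_K _ x).1 hx k
  · by_contra hno
    push Not at hno
    refine hnd i (K_drop_eq fun x hx => ?_)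
    by_contra hx1
    push Not at hx1
    obtain ⟨z, hz⟩ := (INT hK (n + 2) p q h).2
    have hz' : z ∈ interior (AX.K 1 (fun j => q (i.succAbove j))) :=
      interior_mono (K_drop q i) hz
    have hzi := int_lt hz i
    -- intermediate value
    have hcont : Continuous (fun t : ℝ => dist (AffineMap.lineMap z x t : ℂ) (q i)) := by
      fun_prop
    have hiv := intermediate_value_Icc (zero_le_one) hcont.continuousOn
    have h1 : (1 : ℝ) ∈ Set.Icc (dist (AffineMap.lineMap z x (0 : ℝ) : ℂ) (q i))
        (dist (AffineMap.lineMap z x (1 : ℝ) : ℂ) (q i)) := by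
      rw [AffineMap.lineMap_apply_zero, AffineMap.lineMap_apply_one]
      exact ⟨hzi.le, hx1.le⟩
    obtain ⟨t, ht, ht1⟩ := hiv h1
    have ht0 : t ≠ 1 := by
      intro h0
      rw [h0] at ht1
      simp only [AffineMap.lineMap_apply_one] at ht1
      linarith
    have hw : (AffineMap.lineMap z x t : ℂ) ∈ interior (AX.K 1 (fun j => q (i.succAbove j))) := by
      have h2 := (K_convex (fun j => q (i.succAbove j))).combo_interior_self_mem_interior hz' hx
        (a := 1 - t) (b := t) (by
          have := ht.2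
          rcases this.lt_or_eq with h3 | h3
          · linarith
          · exact absurd h3 ht0) ht.1 (by ring)
      rw [AffineMap.lineMap_apply_module]
      exact h2
    obtain ⟨s, u, hsu, harc⟩ := arc_of_open isOpen_interior hw ht1
    refine hno s u hsu fun θ hθ => ?_
    rw [mem_T, mem_K]
    intro j
    rcases Fin.eq_self_or_eq_succAbove i j with rfl | ⟨k, rfl⟩
    · rw [dist_eq_norm, add_sub_cancel_left, norm_e]
    · exact (mem_K _ _).1 (interior_subset (harc θ hθ)) k

end E5
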