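import Pool.Agent.Helper35.E5.Base

set_option autoImplicit false

open scoped MeasureTheory ENNReal Topology
open Complex

namespace E5

open H35

theorem INT (hK : AX.ST_KIRS) : ST_INT := by
  intro n p q hM
  have hp : (interior (AX.K 1 p)).Nonempty := by
    by_contra h
    have h1 := per_zero h
    have h2 := per_nonneg q
    have h3 := hM.pos
    linarith
  refine ⟨hp, ?_⟩
  obtain ⟨z, hz⟩ := hp
  obtain ⟨ε, hε, hb⟩ := Metric.isOpen_iff.1 isOpen_interior z hz
  have hb' := ball_le hε (hb.trans interior_subset)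
  have h1 : (AX.K (1 - ε / 2) p).Nonempty := ⟨z, (mem_Kr _ p z).2 hb'⟩
  obtain ⟨y, hy⟩ := hK n (1 - ε / 2) p q hM.ctr h1
  rw [mem_Kr] at hy
  exact ⟨y, lt_int fun i => by linarith [hy i]⟩

end E5
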