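import Pool.Agent.Helper22.E5.V3

/-!
MP_efd95c_co, wheels: the quadrilateral inequalities are strict in a full family.
-/

set_option autoImplicit false

open scoped MeasureTheory ENNReal Topology
open Complex Filter

noncomputable section

namespace E5
namespace R35

variable {n : ℕ} {c : Fin n → ℂ} {M : ℕ} {g : ℤ → Fin n} {a b : ℤ → ℝ}

theorem e_re35 (a : ℝ) : (AX.e a).re = Real.cos a := by
  unfold AX.e
  exact Complex.exp_ofReal_mul_I_re a

theorem e_im35 (a : ℝ) : (AX.e a).im = Real.sin a := by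
  unfold AX.e
  exact Complex.exp_ofReal_mul_I_im a

theorem e_cont35 : Continuous AX.e := by
  unfold AX.e
  fun_prop

theorem e_sum35 (s t : ℝ) : AX.e s + AX.e t =
    ((2 * Real.cos ((t - s) / 2) : ℝ) : ℂ) * AX.e ((s + t) / 2) := by
  have hs : s = (s + t) / 2 - (t - s) / 2 := by ring
  have ht : t = (s + t) / 2 + (t - s) / 2 := by ring
  have e1 : AX.e s = AX.e ((s + t) / 2 - (t - s) / 2) := by rw [← hs]
  have e2 : AX.e t = AX.e ((s + t) / 2 + (t - s) / 2) := by rw [← ht]
  rw [e1, e2]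
  apply Complex.ext
  · rw [Complex.add_re, Complex.re_ofReal_mul, e_re35, e_re35, e_re35, Real.cos_sub,
      Real.cos_add]
    ring
  · rw [Complex.add_im, Complex.im_ofReal_mul, e_im35, e_im35, e_im35, Real.sin_sub,
      Real.sin_add]
    ring

/-- between two supporting directions the support is strict -/
theorem sup_mid35 {x y : ℂ} {s t : ℝ} (hst : s < t) (hpi : t < s + Real.pi) (hne : x ≠ y)
    (h1 : AX.Sup 1 x s y) (h2 : AX.Sup 1 x t y) :
    dist x y ^ 2 < 2 * 1 * ((y - x) * (starRingEnd ℂ) (AX.e ((s + t) / 2))).re := by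
  unfold AX.Sup at h1 h2
  have hd : 0 < dist x y := dist_pos.2 hne
  have hc : 0 < Real.cos ((t - s) / 2) :=
    Real.cos_pos_of_mem_Ioo ⟨by linarith [Real.pi_pos], by linarith⟩
  have hc1 : Real.cos ((t - s) / 2) < 1 := by
    have := Real.cos_lt_cos_of_nonneg_of_le_pi (x := 0) (y := (t - s) / 2) le_rfl
      (by linarith [Real.pi_pos]) (by linarith)
    rwa [Real.cos_zero] at this
  have h3 : ((y - x) * (starRingEnd ℂ) (AX.e s)).re + ((y - x) * (starRingEnd ℂ) (AX.e t)).re =
      2 * Real.cos ((t - s) / 2) * ((y - x) * (starRingEnd ℂ) (AX.e ((s + t) / 2))).re := by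
    rw [← Complex.add_re, ← mul_add, ← map_add, e_sum35, map_mul, Complex.conj_ofReal]
    have : (y - x) * (((2 * Real.cos ((t - s) / 2) : ℝ) : ℂ) *
        (starRingEnd ℂ) (AX.e ((s + t) / 2))) = ((2 * Real.cos ((t - s) / 2) : ℝ) : ℂ) *
        ((y - x) * (starRingEnd ℂ) (AX.e ((s + t) / 2))) := by ring
    rw [this, Complex.re_ofReal_mul]
  obtain ⟨V, hV⟩ : ∃ V, V = ((y - x) * (starRingEnd ℂ) (AX.e ((s + t) / 2))).re := ⟨_, rfl⟩
  rw [← hV] at h3 ⊢
  have h4 : 2 * dist x y ^ 2 ≤ 2 * (2 * Real.cos ((t - s) / 2) * V) := by rw [← h3]; linarith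
  have hV0 : 0 < V := by
    by_contra hn
    push Not at hn
    have : 2 * Real.cos ((t - s) / 2) * V ≤ 0 := by
      apply mul_nonpos_of_nonneg_of_nonpos <;> linarith
    have : 0 < dist x y ^ 2 := by positivity
    linarith
  nlinarith

/-- rotation of the vertex `y` about `w`, away from `z` -/
theorem rot_dist35 {u v : ℂ} {ε : ℝ} (h0 : 0 < Real.sin (ε / 2))
    (h : 0 < ((starRingEnd ℂ) u * v).re * Real.sin (ε / 2) +
      ((starRingEnd ℂ) u * v).im * Real.cos (ε / 2)) :
    ‖u - v‖ < ‖AX.e (-ε) * u - v‖ := by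
  have h1 : ‖AX.e (-ε) * u - v‖ ^ 2 - ‖u - v‖ ^ 2 = 4 * Real.sin (ε / 2) *
      (((starRingEnd ℂ) u * v).re * Real.sin (ε / 2) +
      ((starRingEnd ℂ) u * v).im * Real.cos (ε / 2)) := by
    have e0 : ε = 2 * (ε / 2) := by ring
    have c1 : Real.cos ε = 1 - 2 * Real.sin (ε / 2) ^ 2 := by
      conv_lhs => rw [e0]
      rw [Real.cos_two_mul]
      nlinarith [Real.sin_sq_add_cos_sq (ε / 2)]
    have s1 : Real.sin ε = 2 * Real.sin (ε / 2) * Real.cos (ε / 2) := by
      conv_lhs => rw [e0]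
      rw [Real.sin_two_mul]
    rw [Complex.sq_norm, Complex.sq_norm, Complex.normSq_apply, Complex.normSq_apply]
    simp only [Complex.sub_re, Complex.sub_im, Complex.mul_re, Complex.mul_im, e_re35, e_im35,
      Complex.conj_re, Complex.conj_im, Real.cos_neg, Real.sin_neg]
    have hcs := Real.sin_sq_add_cos_sq ε
    have h5 : Real.cos ε ^ 2 = 1 - Real.sin ε ^ 2 := by linarith
    have h6 : (Real.cos ε * u.re - -Real.sin ε * u.im - v.re) *
        (Real.cos ε * u.re - -Real.sin ε * u.im - v.re) +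
        (Real.cos ε * u.im + -Real.sin ε * u.re - v.im) *
        (Real.cos ε * u.im + -Real.sin ε * u.re - v.im) =
        (Real.cos ε ^ 2 + Real.sin ε ^ 2) * (u.re ^ 2 + u.im ^ 2) + v.re ^ 2 + v.im ^ 2 -
        2 * Real.cos ε * (u.re * v.re + u.im * v.im) -
        2 * Real.sin ε * (u.im * v.re - u.re * v.im) := by ring
    rw [h6, h5, c1, s1]
    ring
  have h2 : 0 < ‖AX.e (-ε) * u - v‖ ^ 2 - ‖u - v‖ ^ 2 := by
    rw [h1]
    exact mul_pos (by linarith) h
  nlinarith [norm_nonneg (u - v), norm_nonneg (AX.e (-ε) * u - v)]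

theorem lg_lt35 {x y z w : ℂ} (h : dist x y < dist z w) (h2 : dist x y < 2) :
    lg x y < lg z w := by
  rw [lg_eq, lg_eq]
  have hn : 0 ≤ dist x y := dist_nonneg
  rcases le_or_gt (dist z w) 2 with h3 | h3
  · have := Real.arcsin_lt_arcsin (x := dist x y / 2) (y := dist z w / 2) (by linarith)
      (by linarith) (by linarith)
    linarith
  · rw [Real.arcsin_of_one_le (x := dist z w / 2) (by linarith)]
    have := Real.arcsin_lt_pi_div_two.2 (show dist x y / 2 < 1 by linarith)
    linarith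

/-- strict quadrilateral inequality -/
theorem kalS (h : HD c M g a b) (hab : ∀ k, a k < b k) {i j k l : ℤ} (hij : i < j) (hjk : j < k)
    (hkl : k < l) (hl : l < i + M) :
    lg (c (g i)) (c (g j)) + lg (c (g k)) (c (g l)) <
      lg (c (g i)) (c (g k)) + lg (c (g j)) (c (g l)) := by
  have hm := H22.hd_a22 h
  have hba : ∀ x y : ℤ, x < y → b x < a y := by
    intro x y hxy
    have h1 := h.step x
    have h2 : a (x + 1) ≤ a y := hm.monotone (by omega)
    have h3 : 0 < lg (c (g x)) (c (g (x + 1))) := by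
      apply lg_pos
      apply H22.hd_ne22 h (by omega)
      have := h.two
      omega
    linarith
  obtain ⟨m, hmd⟩ : ∃ m : ℤ → ℝ, ∀ x, m x = (a x + b x) / 2 := ⟨_, fun x => rfl⟩
  have hmm : ∀ x y : ℤ, x < y → m x < m y := by
    intro x y hxy
    have h1 := hba x y hxy
    have h2 := hab x
    have h3 := hab y
    rw [hmd, hmd]
    linarith
  have hmper : m (i + M) = m i + 2 * Real.pi := by
    rw [hmd, hmd, h.aper, h.bper]; ring
  have hTa : ∀ k' l' : ℤ, AX.Sup 1 (c (g k')) (a k') (c (g l')) := fun k' l' =>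
    (axTSUP _ 1 c (g k') (a k') one_pos).1 (H22.hd_T22 h k') (g l')
  have hTb : ∀ k' l' : ℤ, AX.Sup 1 (c (g k')) (b k') (c (g l')) := fun k' l' =>
    (axTSUP _ 1 c (g k') (b k') one_pos).1
      ((h.mem k' (b k') (h.le k') (by linarith [h.ltpi k', Real.pi_pos])).2 le_rfl) (g l')
  have hS : ∀ k' l' : ℤ, c (g k') ≠ c (g l') → dist (c (g k')) (c (g l')) ^ 2 <
      2 * 1 * ((c (g l') - c (g k')) * (starRingEnd ℂ) (AX.e (m k'))).re := by
    intro k' l' hne
    rw [hmd]
    exact sup_mid35 (hab k') (h.ltpi k') hne (hTa k' l') (hTb k' l')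
  have nij := H22.hd_ne22 h hij (by omega)
  have nik := H22.hd_ne22 h (hij.trans hjk) (by omega)
  have nil := H22.hd_ne22 h (hij.trans (hjk.trans hkl)) (by omega)
  have njk := H22.hd_ne22 h hjk (by omega)
  have njl := H22.hd_ne22 h (hjk.trans hkl) (by omega)
  have nkl := H22.hd_ne22 h hkl (by omega)
  have hO := ORI n c M g a b h i k l (hij.trans hjk) hkl hl
  have hS12 := hS i j nij
  have hS13 := hS i k nik
  have hS14 := hS i l nil
  have hS21 := hS j i nij.symm
  have hS23 := hS j k njk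
  have hS24 := hS j l njl
  have hS31 := hS k i nik.symm
  have hS32 := hS k j njk.symm
  have hS34 := hS k l nkl
  have hS41 := hS l i nil.symm
  have hS42 := hS l j njl.symm
  have hS43 := hS l k nkl.symm
  have hD := D2 n c h.int (g k) (g l)
  have hm1 := hmm i j hij
  have hm2 := hmm j k hjk
  have hm3 := hmm k l hkl
  have hm4 := hmm l (i + M) hl
  rw [hmper] at hm4
  generalize c (g i) = w at *
  generalize c (g j) = x at *
  generalize c (g k) = y at *
  generalize c (g l) = z at *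
  have hY : Continuous (fun ε : ℝ => w + AX.e (-ε) * (y - w)) := by
    have := e_cont35
    fun_prop
  have hY0 : w + AX.e (-0) * (y - w) = y := by
    have : AX.e (-0) = 1 := by unfold AX.e; simp
    rw [this]; ring
  have cc : ∀ t : ℝ, Continuous (fun ε : ℝ => (starRingEnd ℂ) (AX.e t)) := fun t =>
    continuous_const
  -- eventually all conditions hold
  have ev1 : ∀ (t : ℝ) (p : ℂ), dist p y ^ 2 < 2 * 1 * ((y - p) * (starRingEnd ℂ) (AX.e t)).re →
      ∀ᶠ ε : ℝ in 𝓝 0, dist p (w + AX.e (-ε) * (y - w)) ^ 2 <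
        2 * 1 * (((w + AX.e (-ε) * (y - w)) - p) * (starRingEnd ℂ) (AX.e t)).re := by
    intro t p hp
    apply ContinuousAt.eventually_lt
    · exact (((continuous_const.dist hY).pow 2).continuousAt)
    · exact (continuous_const.mul (Complex.continuous_re.comp
        ((hY.sub continuous_const).mul continuous_const))).continuousAt
    · rw [hY0]; exact hp
  have ev2 : ∀ (t : ℝ) (p : ℂ), dist y p ^ 2 < 2 * 1 * ((p - y) * (starRingEnd ℂ) (AX.e t)).re →
      ∀ᶠ ε : ℝ in 𝓝 0, dist (w + AX.e (-ε) * (y - w)) p ^ 2 <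
        2 * 1 * ((p - (w + AX.e (-ε) * (y - w))) * (starRingEnd ℂ) (AX.e t)).re := by
    intro t p hp
    apply ContinuousAt.eventually_lt
    · exact (((hY.dist continuous_const).pow 2).continuousAt)
    · exact (continuous_const.mul (Complex.continuous_re.comp
        ((continuous_const.sub hY).mul continuous_const))).continuousAt
    · rw [hY0]; exact hp
  have ev3 : ∀ p : ℂ, p ≠ y → ∀ᶠ ε : ℝ in 𝓝 0, w + AX.e (-ε) * (y - w) ≠ p := by
    intro p hp
    apply ContinuousAt.eventually_ne hY.continuousAt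
    rw [hY0]
    exact hp.symm
  have ev4 : ∀ᶠ ε : ℝ in 𝓝 0, 0 < ((starRingEnd ℂ) (y - w) * (z - w)).re * Real.sin (ε / 2) +
      ((starRingEnd ℂ) (y - w) * (z - w)).im * Real.cos (ε / 2) := by
    apply ContinuousAt.eventually_lt continuousAt_const
    · fun_prop
    · simp only [zero_div, Real.sin_zero, Real.cos_zero, mul_zero, zero_add, mul_one]
      exact hO
  have ev5 : ∀ᶠ ε : ℝ in 𝓝 0, ε < 1 := by
    apply ContinuousAt.eventually_lt continuousAt_id continuousAt_const
    norm_num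
  have hall := ((((((((((ev1 _ w hS13).and (ev1 _ x hS23)).and (ev1 _ z hS43)).and
    (ev2 _ w hS31)).and (ev2 _ x hS32)).and (ev2 _ z hS34)).and (ev3 w nik)).and
    (ev3 x njk)).and (ev3 z nkl.symm)).and ev4).and ev5
  obtain ⟨ε, hε, hε0⟩ := ((hall.filter_mono (nhdsWithin_le_nhds (s := Set.Ioi 0))).and
    self_mem_nhdsWithin).exists
  obtain ⟨⟨⟨⟨⟨⟨⟨⟨⟨⟨g1, g2⟩, g3⟩, g4⟩, g5⟩, g6⟩, g7⟩, g8⟩, g9⟩, g10⟩, g11⟩ := hε
  have hε0' : 0 < ε := hε0
  have hsin : 0 < Real.sin (ε / 2) := Real.sin_pos_of_pos_of_lt_pi (by linarith)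
    (by linarith [Real.pi_gt_three])
  have hq := axQ 1 w x (w + AX.e (-ε) * (y - w)) z _ _ _ _ one_pos hm1 hm2 hm3 hm4 nij g7.symm nil
    g8.symm njl g9 hS12.le g1.le hS14.le hS21.le g2.le hS24.le g4.le g5.le g6.le hS41.le hS42.le
    g3.le
  have hd1 : dist y z < dist (w + AX.e (-ε) * (y - w)) z := by
    rw [dist_eq_norm, dist_eq_norm]
    have := rot_dist35 hsin g10
    have e1 : y - w - (z - w) = y - z := by ring
    have e2 : AX.e (-ε) * (y - w) - (z - w) = w + AX.e (-ε) * (y - w) - z := by ring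
    rwa [e1, e2] at this
  have hd2 : dist w (w + AX.e (-ε) * (y - w)) = dist w y := by
    rw [dist_eq_norm, dist_eq_norm]
    have e1 : w - (w + AX.e (-ε) * (y - w)) = AX.e (-ε) * (w - y) := by ring
    have e2 : ‖AX.e (-ε)‖ = 1 := by
      unfold AX.e
      exact Complex.norm_exp_ofReal_mul_I _
    rw [e1, norm_mul, e2, one_mul]
  have hl1 := lg_lt35 hd1 hD
  have hl2 : lg w (w + AX.e (-ε) * (y - w)) = lg w y := by
    rw [lg_eq, lg_eq, hd2]
  have hq2 : lg w x + lg (w + AX.e (-ε) * (y - w)) z ≤ lg w (w + AX.e (-ε) * (y - w)) + lg x z := by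
    unfold lg
    linarith
  rw [hl2] at hq2
  linarith

theorem kalS' (h : HD c M g a b) (hab : ∀ k, a k < b k) {i j k l : ℤ} (hij : i < j) (hjk : j < k)
    (hkl : k < l) (hl : l < i + M) :
    lg (c (g i)) (c (g l)) + lg (c (g j)) (c (g k)) <
      lg (c (g i)) (c (g k)) + lg (c (g j)) (c (g l)) := by
  have h1 := kalS h hab hjk hkl hl (by omega)
  rw [h.gper] at h1
  have e1 := lg_comm (c (g i)) (c (g l))
  have e2 := lg_comm (c (g i)) (c (g k))
  linarith

end R35
end E5
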