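import Pool.Agent.Helper88.E5.K0

/-!
MP_efd95c_co, row KYE: kink `a` with slack unstressed spoke, `yx` slack. helper15's chain for
`e = π - (b1 + b2 + b3) ≤ π / 2` and `b1 + b2 < e`: gain `h0 ra + h0 rb - hd ab` is at most
`h0 rx - h0 ry + hd ay - hd ax` plus the increase of `hd xy` between the angles `b2` and `2 e - b2`.
Everything is reduced to chords (flat case) by convexity.
-/

set_option autoImplicit false
set_option linter.unusedVariables false

open Real

noncomputable section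

namespace E5

/-! ### the function `arcsin √v - √v` -/

def kyH (v : ℝ) : ℝ := arcsin (sqrt v) - sqrt v

theorem kyH_deriv {v : ℝ} (h0 : 0 < v) (h1 : v < 1) :
    HasDerivAt kyH (sqrt v / (2 * (sqrt (1 - v) * (1 + sqrt (1 - v))))) v := by
  have hs : 0 < sqrt v := sqrt_pos.2 h0
  have hs1 : sqrt v < 1 := by
    rw [sqrt_lt' one_pos]
    simpa using h1
  have hw : 0 < sqrt (1 - v) := sqrt_pos.2 (by linarith)
  have e1 : sqrt v ^ 2 = v := sq_sqrt h0.le
  have e2 : sqrt (1 - v) ^ 2 = 1 - v := sq_sqrt (by linarith)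
  have d1 := Real.hasDerivAt_sqrt h0.ne'
  have d2 := (Real.hasDerivAt_arcsin (x := sqrt v) (by linarith) hs1.ne).comp v d1
  have d3 := d2.sub d1
  have e3 : sqrt v / (2 * (sqrt (1 - v) * (1 + sqrt (1 - v)))) =
      1 / sqrt (1 - sqrt v ^ 2) * (1 / (2 * sqrt v)) - 1 / (2 * sqrt v) := by
    rw [e1]
    have hw1 : 0 < 1 + sqrt (1 - v) := by linarith
    rw [div_eq_iff (by positivity)]
    field_simp
    nlinarith [e1, e2]
  rw [e3]
  exact d3

theorem kyH_convex : ConvexOn ℝ (Set.Icc (0 : ℝ) 1) kyH := by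
  refine MonotoneOn.convexOn_of_deriv (convex_Icc 0 1) ?_ ?_ ?_
  · exact ((continuous_arcsin.comp continuous_sqrt).sub continuous_sqrt).continuousOn
  · rw [interior_Icc]
    intro v hv
    exact (kyH_deriv hv.1 hv.2).differentiableAt.differentiableWithinAt
  · rw [interior_Icc]
    intro u hu v hv huv
    rw [(kyH_deriv hu.1 hu.2).deriv, (kyH_deriv hv.1 hv.2).deriv]
    have a1 : sqrt u ≤ sqrt v := sqrt_le_sqrt huv
    have a2 : sqrt (1 - v) ≤ sqrt (1 - u) := sqrt_le_sqrt (by linarith)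
    have a3 : 0 < sqrt (1 - v) := sqrt_pos.2 (by linarith [hv.2])
    have a4 : 0 ≤ sqrt u := sqrt_nonneg _
    have a5 : sqrt (1 - v) * (1 + sqrt (1 - v)) ≤ sqrt (1 - u) * (1 + sqrt (1 - u)) := by
      gcongr
    exact div_le_div₀ (sqrt_nonneg _) a1 (by positivity) (by linarith)

/-- `arcsin` expands distances -/
theorem arcsin_expand {x y : ℝ} (hx : 0 ≤ x) (hxy : x ≤ y) (hy : y ≤ 1) :
    y - x ≤ arcsin y - arcsin x := by
  have h1 : sin (arcsin x) = x := sin_arcsin (by linarith) (by linarith)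
  have h2 : sin (arcsin y) = y := sin_arcsin (by linarith) hy
  have h3 : arcsin x ≤ arcsin y := monotone_arcsin hxy
  have h4 := Real.sin_sub_sin (arcsin y) (arcsin x)
  have h5 : 0 ≤ (arcsin y - arcsin x) / 2 := by linarith
  have h6 : sin ((arcsin y - arcsin x) / 2) ≤ (arcsin y - arcsin x) / 2 := sin_le h5
  have h7 : 0 ≤ sin ((arcsin y - arcsin x) / 2) := by
    refine sin_nonneg_of_nonneg_of_le_pi h5 ?_
    have := arcsin_le_pi_div_two y
    have := neg_pi_div_two_le_arcsin x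
    linarith [pi_pos]
  have h8 : cos ((arcsin y + arcsin x) / 2) ≤ 1 := cos_le_one _
  rw [h1, h2] at h4
  nlinarith

theorem kyH_zero : kyH 0 = 0 := by
  unfold kyH
  rw [sqrt_zero, arcsin_zero, sub_zero]

theorem kyH_mono {u v : ℝ} (hu : 0 ≤ u) (huv : u ≤ v) (hv : v ≤ 1) : kyH u ≤ kyH v := by
  unfold kyH
  have h1 : sqrt u ≤ sqrt v := sqrt_le_sqrt huv
  have h2 : sqrt v ≤ 1 := by
    rw [← sqrt_one]
    exact sqrt_le_sqrt hv
  have := arcsin_expand (sqrt_nonneg u) h1 h2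
  linarith

theorem kyH_nonneg {v : ℝ} (h0 : 0 ≤ v) (h1 : v ≤ 1) : 0 ≤ kyH v := by
  rw [← kyH_zero]
  exact kyH_mono le_rfl h0 h1

/-- weak majorization of pairs; `q` is the larger one -/
theorem kyH_pair {p q r t : ℝ} (hr : 0 ≤ r) (ht : 0 ≤ t) (hp0 : 0 ≤ p) (hp : p ≤ 1) (hq : q ≤ 1)
    (h1 : r ≤ q) (h2 : t ≤ q) (h3 : r + t ≤ p + q) : kyH r + kyH t ≤ kyH p + kyH q := by
  rcases le_total (r + t) q with h | h
  · have k1 := H82EF.cvx_pair kyH_convex (u := r) (v := t) (p := 0) (q := r + t) le_rfl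
      (h.trans hq) hr (by linarith) (by ring)
    rw [kyH_zero] at k1
    have k2 := kyH_mono (by linarith) h hq
    have k3 := kyH_nonneg hp0 hp
    linarith
  · have k1 := H82EF.cvx_pair kyH_convex (u := r) (v := t) (p := r + t - q) (q := q) (by linarith)
      hq (by linarith) h1 (by ring)
    have k2 := kyH_mono (u := r + t - q) (v := p) (by linarith) (by linarith) hp
    linarith

/-- half arc minus half chord -/
def kyg (c : ℝ) : ℝ := arcsin (c / 2) - c / 2

theorem kyg_eq {c : ℝ} (hc : 0 ≤ c) : kyg c = kyH (c ^ 2 / 4) := by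
  unfold kyg kyH
  have : sqrt (c ^ 2 / 4) = c / 2 := by
    rw [show c ^ 2 / 4 = (c / 2) ^ 2 by ring]
    exact sqrt_sq (by linarith)
  rw [this]

theorem kyg_mono {c d : ℝ} (hc : 0 ≤ c) (h : c ≤ d) (hd : d ≤ 2) : kyg c ≤ kyg d := by
  rw [kyg_eq hc, kyg_eq (hc.trans h)]
  exact kyH_mono (by positivity) (by nlinarith) (by nlinarith)

/-- weak majorization of pairs for chords; `q` is the larger one -/
theorem kyg_pair {p q r t : ℝ} (hr : 0 ≤ r) (ht : 0 ≤ t) (hp0 : 0 ≤ p) (hq0 : 0 ≤ q) (hp : p ≤ 2)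
    (hq : q ≤ 2) (h1 : r ≤ q) (h2 : t ≤ q) (h3 : r ^ 2 + t ^ 2 ≤ p ^ 2 + q ^ 2) :
    kyg r + kyg t ≤ kyg p + kyg q := by
  rw [kyg_eq hr, kyg_eq ht, kyg_eq hp0, kyg_eq hq0]
  exact kyH_pair (by positivity) (by positivity) (by positivity) (by nlinarith) (by nlinarith)
    (by nlinarith) (by nlinarith) (by linarith)

/-! ### chords -/

/-- (b): sum of two distances -/
theorem ky_ch_le {rx ry θ : ℝ} (ry0 : 0 < ry) (hyx : ry ≤ rx) (h0 : 0 ≤ θ) (h1 : θ ≤ 2 * π) :
    ch rx ry θ ≤ rx - ry + 2 * ry * sin (θ / 2) := by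
  have s0 : 0 ≤ sin (θ / 2) := sin_nonneg_of_nonneg_of_le_pi (by linarith) (by linarith)
  have s1 : sin (θ / 2) ≤ 1 := sin_le_one _
  have hc : cos θ = 1 - 2 * sin (θ / 2) ^ 2 := by
    have h3 := cos_two_mul (θ / 2)
    have h2 := sin_sq_add_cos_sq (θ / 2)
    have e3 : 2 * (θ / 2) = θ := by ring
    rw [e3] at h3
    linarith
  have h4 : 0 ≤ rx - ry + 2 * ry * sin (θ / 2) := by
    have : 0 ≤ 2 * ry * sin (θ / 2) := by positivity
    linarith
  refine abs_le_of_sq_le_sq' ?_ h4 |>.2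
  rw [ch_sq, hc]
  have h5 : 0 ≤ ry * sin (θ / 2) * (1 - sin (θ / 2)) * (rx - ry) :=
    mul_nonneg (mul_nonneg (by positivity) (by linarith)) (by linarith)
  nlinarith [h5]

/-- the increase of the distance `xy` -/
theorem ky_L {rx ry e d M : ℝ} (ry0 : 0 < ry) (hyx : ry ≤ rx) (hd0 : 0 < d) (hde : d < e)
    (hed : e + d ≤ 2 * π) (M1 : 1 ≤ M) (M2 : 2 * sin (e / 2) * cos (d / 2) ≤ M)
    (hsd : 0 ≤ sin e * sin d) :
    2 * ry * (sin e * sin d) ≤ (ch rx ry (e + d) - ch rx ry (e - d)) * M := by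
  have rx0 : 0 < rx := ry0.trans_le hyx
  have z1 := ky_ch_le ry0 hyx (θ := e - d) (by linarith) (by linarith)
  have z2 := ky_ch_le ry0 hyx (θ := e + d) (by linarith) (by linarith)
  have n1 := ch_nonneg88 rx ry (e - d)
  have n2 := ch_nonneg88 rx ry (e + d)
  have q1 := ch_sq rx ry (e - d)
  have q2 := ch_sq rx ry (e + d)
  have t1 : cos (e - d) - cos (e + d) = 2 * (sin e * sin d) := by
    rw [cos_sub, cos_add]
    ring
  have t2 : sin ((e - d) / 2) + sin ((e + d) / 2) = 2 * sin (e / 2) * cos (d / 2) := by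
    rw [show (e - d) / 2 = e / 2 - d / 2 by ring, show (e + d) / 2 = e / 2 + d / 2 by ring,
      sin_sub, sin_add]
    ring
  have hs : ch rx ry (e + d) + ch rx ry (e - d) ≤ 2 * rx * M := by
    have h1 : 2 * ry * (sin ((e - d) / 2) + sin ((e + d) / 2)) ≤ 2 * ry * M := by
      rw [t2]
      gcongr
    have h2 : 2 * (rx - ry) * 1 ≤ 2 * (rx - ry) * M := by
      have : 0 ≤ 2 * (rx - ry) := by linarith
      gcongr
    nlinarith
  have hp : (ch rx ry (e + d) - ch rx ry (e - d)) * (ch rx ry (e + d) + ch rx ry (e - d)) =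
      4 * rx * ry * (sin e * sin d) := by
    have : (ch rx ry (e + d) - ch rx ry (e - d)) * (ch rx ry (e + d) + ch rx ry (e - d)) =
      ch rx ry (e + d) ^ 2 - ch rx ry (e - d) ^ 2 := by ring
    rw [this, q1, q2]
    linear_combination (2 * rx * ry) * t1
  have hd : 0 ≤ ch rx ry (e + d) - ch rx ry (e - d) := by
    by_contra hneg
    push Not at hneg
    have h1 : 0 < ch rx ry (e + d) + ch rx ry (e - d) := by linarith
    have h2 := mul_neg_of_neg_of_pos hneg h1
    have h3 : 0 ≤ 4 * rx * ry * (sin e * sin d) := by positivity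
    linarith
  have h5 := mul_le_mul_of_nonneg_left hs hd
  rw [hp] at h5
  have h6 : 2 * rx * (2 * ry * (sin e * sin d)) ≤
      2 * rx * ((ch rx ry (e + d) - ch rx ry (e - d)) * M) := by nlinarith
  exact le_of_mul_le_mul_left h6 (by linarith)

/-- `y` beyond the chord `ab` -/
theorem ky_y {ra ry rb A b3 : ℝ} (ra0 : 0 < ra) (ry0 : 0 < ry) (rb0 : 0 < rb)
    (A0 : 0 < A) (b30 : 0 < b3) (hΦ : A + b3 < π) (uy : un ry ra A + un ry rb b3 < π) :
    ra * rb * sin (A + b3) ≤ ry * (ch ra rb (A + b3) * sin (un ra rb (A + b3) + A)) := by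
  have hA : A < π := by linarith
  have hb3 : b3 < π := by linarith
  obtain ⟨u0, u1, u2, u3⟩ := tri_un (r := ra) rb0 (by linarith : 0 < A + b3) hΦ
  obtain ⟨v0, v1, v2, v3⟩ := tri_un (r := ry) ra0 A0 hA
  obtain ⟨w0, w1, w2, w3⟩ := tri_un (r := ry) rb0 b30 hb3
  have c2 := tri_ch_pos (r := ry) ra0 A0 hA
  have c3 := tri_ch_pos (r := ry) rb0 b30 hb3
  have f0 : 0 ≤ ra * ry * sin A + ry * rb * sin b3 - ra * rb * sin (A + b3) := by
    have h1 : 0 ≤ sin (un ry ra A + un ry rb b3) :=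
      sin_nonneg_of_nonneg_of_le_pi (by linarith) uy.le
    have h2 : ra * ry * sin A + ry * rb * sin b3 - ra * rb * sin (A + b3) =
        ch ry ra A * ch ry rb b3 * sin (un ry ra A + un ry rb b3) := by
      rw [sin_add (un ry ra A), sin_add A b3]
      have e1 : ch ry ra A * ch ry rb b3 * (sin (un ry ra A) * cos (un ry rb b3) +
          cos (un ry ra A) * sin (un ry rb b3)) =
          (ch ry ra A * sin (un ry ra A)) * (ch ry rb b3 * cos (un ry rb b3)) +
          (ch ry ra A * cos (un ry ra A)) * (ch ry rb b3 * sin (un ry rb b3)) := by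
        ring
      rw [e1, ← v2, ← v3, ← w2, ← w3]
      ring
    rw [h2]
    positivity
  have g1 : ch ra rb (A + b3) * sin (un ra rb (A + b3) + A) = ra * sin A + rb * sin b3 := by
    rw [sin_add (un ra rb (A + b3)) A]
    have e3 : ch ra rb (A + b3) * (sin (un ra rb (A + b3)) * cos A + cos (un ra rb (A + b3)) * sin A)
      = (ch ra rb (A + b3) * sin (un ra rb (A + b3))) * cos A +
        (ch ra rb (A + b3) * cos (un ra rb (A + b3))) * sin A := by ring
    rw [e3, ← u2, ← u3]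
    have e4 : sin b3 = sin ((A + b3) - A) := by congr 1; ring
    rw [e4, sin_sub]
    ring
  rw [g1]
  nlinarith [f0]

/-- trigonometric part of (e) -/
theorem ky_trig {e d w : ℝ} (hd0 : 0 < d) (hde : d < e) (he : e ≤ π / 2) (hw0 : 0 < w)
    (hw : w < 2 * e) :
    sin w * (cos (e - d) - cos e) * max 1 (2 * sin (e / 2) * cos (d / 2)) ≤
      2 * sin e * (sin e * sin d) := by
  have hp := pi_pos
  have se : 0 < sin e := sin_pos_of_pos_of_lt_pi (by linarith) (by linarith)
  have sd2 : 0 < sin (d / 2) := sin_pos_of_pos_of_lt_pi (by linarith) (by linarith)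
  have cd2 : 0 < cos (d / 2) := cos_pos_of_mem_Ioo ⟨by linarith, by linarith⟩
  have sw0 : 0 ≤ sin w := sin_nonneg_of_nonneg_of_le_pi hw0.le (by linarith)
  have sw1 : sin w ≤ 1 := sin_le_one _
  have se2 : 0 < sin (e / 2) := sin_pos_of_pos_of_lt_pi (by linarith) (by linarith)
  have c1 : cos (e - d) - cos e = 2 * sin (e - d / 2) * sin (d / 2) := by
    rw [cos_sub_cos]
    rw [show (e - d + e) / 2 = e - d / 2 by ring, show (e - d - e) / 2 = -(d / 2) by ring, sin_neg]
    ring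
  have c2 : sin d = 2 * sin (d / 2) * cos (d / 2) := by
    rw [← sin_two_mul]
    congr 1
    ring
  have s1 : sin (e - d / 2) ≤ sin e :=
    sin_le_sin_of_le_of_le_pi_div_two (by linarith) he (by linarith)
  have s10 : 0 ≤ sin (e - d / 2) := sin_nonneg_of_nonneg_of_le_pi (by linarith) (by linarith)
  have s2 : sin (e / 2) ≤ sin e :=
    sin_le_sin_of_le_of_le_pi_div_two (by linarith) he (by linarith)
  -- the main inequality
  have main : sin w * sin (e - d / 2) * max 1 (2 * sin (e / 2) * cos (d / 2)) ≤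
      2 * sin e ^ 2 * cos (d / 2) := by
    rcases max_cases 1 (2 * sin (e / 2) * cos (d / 2)) with ⟨h, _⟩ | ⟨h, _⟩
    · rw [h, mul_one]
      have h1 : sin w ≤ 2 * sin e * cos (d / 2) := by
        have ce : cos e ≤ cos (d / 2) :=
          cos_le_cos_of_nonneg_of_le_pi (by linarith) (by linarith) (by linarith)
        rcases le_total (2 * e) (π / 2) with h2 | h2
        · have h3 : sin w ≤ sin (2 * e) :=
            sin_le_sin_of_le_of_le_pi_div_two (by linarith) h2 hw.le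
          rw [sin_two_mul] at h3
          nlinarith
        · have h3 : sqrt 2 / 2 ≤ sin e := by
            rw [← sin_pi_div_four]
            exact sin_le_sin_of_le_of_le_pi_div_two (by linarith) he (by linarith)
          have h4 : sqrt 2 / 2 ≤ cos (d / 2) := by
            rw [← cos_pi_div_four]
            exact cos_le_cos_of_nonneg_of_le_pi (by linarith) (by linarith) (by linarith)
          have h5 : sqrt 2 ^ 2 = 2 := sq_sqrt (by norm_num)
          have h6 : 0 < sqrt 2 := sqrt_pos.2 (by norm_num)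
          nlinarith [mul_le_mul h3 h4 (by positivity) se.le]
      calc sin w * sin (e - d / 2) ≤ (2 * sin e * cos (d / 2)) * sin e := by
            exact mul_le_mul h1 s1 s10 (by positivity)
        _ = _ := by ring
    · rw [h]
      calc sin w * sin (e - d / 2) * (2 * sin (e / 2) * cos (d / 2)) ≤
          1 * sin e * (2 * sin e * cos (d / 2)) := by
            gcongr
        _ = _ := by ring
  rw [c1, c2]
  have h2 : 0 ≤ 2 * sin (d / 2) := by positivity
  calc sin w * (2 * sin (e - d / 2) * sin (d / 2)) * max 1 (2 * sin (e / 2) * cos (d / 2)) =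
      (2 * sin (d / 2)) * (sin w * sin (e - d / 2) * max 1 (2 * sin (e / 2) * cos (d / 2))) := by
        ring
    _ ≤ (2 * sin (d / 2)) * (2 * sin e ^ 2 * cos (d / 2)) := mul_le_mul_of_nonneg_left main h2
    _ = _ := by ring

/-- data of the chord `ab`: `u + A < 2 e` -/
theorem ky_w {ra rb A b3 : ℝ} (ra0 : 0 < ra) (rb0 : 0 < rb) (A0 : 0 < A) (b30 : 0 < b3)
    (hΦ : A + b3 < π) (hA : A < π - (A + b3)) :
    0 < un ra rb (A + b3) + A ∧ un ra rb (A + b3) + A < 2 * (π - (A + b3)) := by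
  obtain ⟨u0, u1, u2, u3⟩ := tri_un (r := ra) rb0 (by linarith : 0 < A + b3) hΦ
  obtain ⟨v0, v1, v2, v3⟩ := tri_un (r := rb) ra0 (by linarith : 0 < A + b3) hΦ
  have hs := tri_sum ra0 rb0 (by linarith : 0 < A + b3) hΦ
  exact ⟨by linarith, by linarith⟩

/-- (e): N3 for chords -/
theorem ky_e {ra rx ry rb A b3 e d : ℝ} (ra0 : 0 < ra) (ry0 : 0 < ry) (rb0 : 0 < rb)
    (hyx : ry ≤ rx) (A0 : 0 < A) (b30 : 0 < b3) (uy : un ry ra A + un ry rb b3 < π)
    (eΦ : A + b3 = π - e) (he : e ≤ π / 2) (hA : A < e) (hd0 : 0 < d) (hde : d < e) :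
    ch ra rb (π - (e - d)) - ch ra rb (π - e) ≤ ch rx ry (e + d) - ch rx ry (e - d) := by
  have hp := pi_pos
  have he0 : 0 < e := by linarith
  have hy := ky_y ra0 ry0 rb0 A0 b30 (by linarith) uy
  obtain ⟨w0, w1⟩ := ky_w ra0 rb0 A0 b30 (by linarith) (by linarith)
  rw [eΦ] at hy w0 w1
  rw [sin_pi_sub] at hy
  set w := un ra rb (π - e) + A with hw
  set c := ch ra rb (π - e) with hc
  set c' := ch ra rb (π - (e - d)) with hc'
  set M := max 1 (2 * sin (e / 2) * cos (d / 2)) with hM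
  have M1 : 1 ≤ M := le_max_left _ _
  have se : 0 < sin e := sin_pos_of_pos_of_lt_pi he0 (by linarith)
  have sd : 0 < sin d := sin_pos_of_pos_of_lt_pi hd0 (by linarith)
  have c0 : 0 < c := tri_ch_pos (r := ra) rb0 (by linarith) (by linarith)
  have hL := ky_L (rx := rx) (M := M) ry0 hyx hd0 hde (by linarith) M1 (le_max_right _ _) (by positivity)
  have ht := ky_trig hd0 hde he w0 (by linarith)
  rw [← hM] at ht
  have hcc : c ≤ c' := ch_mono88 ra0 rb0 (by linarith) (by linarith) (by linarith)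
  have k1 : (c' - c) * c ≤ ra * rb * (cos (e - d) - cos e) := by
    have q1 : c ^ 2 = ra ^ 2 + rb ^ 2 - 2 * ra * rb * cos (π - e) := ch_sq _ _ _
    have q2 : c' ^ 2 = ra ^ 2 + rb ^ 2 - 2 * ra * rb * cos (π - (e - d)) := ch_sq _ _ _
    rw [cos_pi_sub] at q1 q2
    have h1 : (c' - c) * (c' + c) = 2 * (ra * rb * (cos (e - d) - cos e)) := by
      have : (c' - c) * (c' + c) = c' ^ 2 - c ^ 2 := by ring
      rw [this, q1, q2]
      ring
    have h2 : (c' - c) * (2 * c) ≤ (c' - c) * (c' + c) :=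
      mul_le_mul_of_nonneg_left (by linarith) (by linarith)
    linarith
  have cc : 0 ≤ cos (e - d) - cos e := by
    have := cos_le_cos_of_nonneg_of_le_pi (by linarith : 0 ≤ e - d) (by linarith : e ≤ π)
      (by linarith)
    linarith
  have key : (c' - c) * (c * sin e * M) ≤ (ch rx ry (e + d) - ch rx ry (e - d)) * (c * sin e * M) := by
    calc (c' - c) * (c * sin e * M) = ((c' - c) * c) * (sin e * M) := by ring
      _ ≤ (ra * rb * (cos (e - d) - cos e)) * (sin e * M) :=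
          mul_le_mul_of_nonneg_right k1 (by positivity)
      _ = (ra * rb * sin e) * ((cos (e - d) - cos e) * M) := by ring
      _ ≤ (ry * (c * sin w)) * ((cos (e - d) - cos e) * M) :=
          mul_le_mul_of_nonneg_right hy (by positivity)
      _ = (ry * c) * (sin w * (cos (e - d) - cos e) * M) := by ring
      _ ≤ (ry * c) * (2 * sin e * (sin e * sin d)) := mul_le_mul_of_nonneg_left ht (by positivity)
      _ = (c * sin e) * (2 * ry * (sin e * sin d)) := by ring
      _ ≤ (c * sin e) * ((ch rx ry (e + d) - ch rx ry (e - d)) * M) :=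
          mul_le_mul_of_nonneg_left hL (by positivity)
      _ = _ := by ring
  exact le_of_mul_le_mul_right key (by positivity)

/-- (f): the flat gain is at most the increase of `xy` when `d ≥ π / 4` -/
theorem ky_f {ra rx ry rb A b3 e d : ℝ} (ra0 : 0 < ra) (ry0 : 0 < ry) (rb0 : 0 < rb)
    (hyx : ry ≤ rx) (A0 : 0 < A) (b30 : 0 < b3) (uy : un ry ra A + un ry rb b3 < π)
    (eΦ : A + b3 = π - e) (he : e ≤ π / 2) (hA : A < e) (hd0 : π / 4 ≤ d) (hde : d < e) :
    ra + rb - ch ra rb (π - e) ≤ ch rx ry (e + d) - ch rx ry (e - d) := by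
  have hp := pi_pos
  have he0 : 0 < e := by linarith
  have hy := ky_y ra0 ry0 rb0 A0 b30 (by linarith) uy
  obtain ⟨w0, w1⟩ := ky_w ra0 rb0 A0 b30 (by linarith) (by linarith)
  rw [eΦ] at hy w0 w1
  rw [sin_pi_sub] at hy
  set w := un ra rb (π - e) + A with hw
  set c := ch ra rb (π - e) with hc
  set M := max 1 (2 * sin (e / 2) * cos (d / 2)) with hM
  have M1 : 1 ≤ M := le_max_left _ _
  have se : 0 < sin e := sin_pos_of_pos_of_lt_pi he0 (by linarith)
  have sd : 0 < sin d := sin_pos_of_pos_of_lt_pi (by linarith) (by linarith)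
  have se2 : 0 < sin (e / 2) := sin_pos_of_pos_of_lt_pi (by linarith) (by linarith)
  have ce2 : 0 < cos (e / 2) := cos_pos_of_mem_Ioo ⟨by linarith, by linarith⟩
  have c0 : 0 < c := tri_ch_pos (r := ra) rb0 (by linarith) (by linarith)
  have hL := ky_L (rx := rx) (M := M) ry0 hyx (by linarith) hde (by linarith) M1
    (le_max_right _ _) (by positivity)
  have r2 : sqrt 2 ^ 2 = 2 := sq_sqrt (by norm_num)
  have r20 : 0 < sqrt 2 := sqrt_pos.2 (by norm_num)
  have dbl : sin e = 2 * sin (e / 2) * cos (e / 2) := by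
    rw [← sin_two_mul]
    congr 1
    ring
  have ce : cos e = 1 - 2 * sin (e / 2) ^ 2 := by
    have h3 := cos_two_mul (e / 2)
    have h2 := sin_sq_add_cos_sq (e / 2)
    have e3 : 2 * (e / 2) = e := by ring
    rw [e3] at h3
    linarith
  have k1 : (ra + rb - c) * c ≤ ra * rb * (2 * sin (e / 2) ^ 2) := by
    have q1 : c ^ 2 = ra ^ 2 + rb ^ 2 - 2 * ra * rb * cos (π - e) := ch_sq _ _ _
    rw [cos_pi_sub, ce] at q1
    have h1 : (ra + rb - c) * (ra + rb + c) = 2 * (ra * rb * (2 * sin (e / 2) ^ 2)) := by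
      have : (ra + rb - c) * (ra + rb + c) = (ra + rb) ^ 2 - c ^ 2 := by ring
      rw [this, q1]
      ring
    have h0 : c ≤ ra + rb := by
      refine abs_le_of_sq_le_sq' ?_ (by positivity) |>.2
      rw [q1]
      have : 0 ≤ ra * rb * sin (e / 2) ^ 2 := by positivity
      nlinarith
    have h2 : (ra + rb - c) * (2 * c) ≤ (ra + rb - c) * (ra + rb + c) :=
      mul_le_mul_of_nonneg_left (by linarith) (by linarith)
    linarith
  -- `M ≤ 4 cos² (e/2) sin d`
  have hMM : M ≤ 4 * cos (e / 2) ^ 2 * sin d := by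
    have h1 : sqrt 2 / 2 ≤ sin d := by
      rw [← sin_pi_div_four]
      exact sin_le_sin_of_le_of_le_pi_div_two (by linarith) (by linarith) (by linarith)
    have h2 : sqrt 2 / 2 ≤ cos (e / 2) := by
      rw [← cos_pi_div_four]
      exact cos_le_cos_of_nonneg_of_le_pi (by linarith) (by linarith) (by linarith)
    have h3 : sin (e / 2) ≤ sqrt 2 / 2 := by
      rw [← sin_pi_div_four]
      exact sin_le_sin_of_le_of_le_pi_div_two (by linarith) (by linarith) (by linarith)
    have h4 : sqrt 2 ≤ 4 * cos (e / 2) ^ 2 * sin d := by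
      have h5 : (sqrt 2 / 2) ^ 2 ≤ cos (e / 2) ^ 2 := by gcongr
      have h6 : 4 * (sqrt 2 / 2) ^ 2 * (sqrt 2 / 2) ≤ 4 * cos (e / 2) ^ 2 * sin d := by gcongr
      nlinarith
    refine max_le ?_ ?_
    · have : 1 ≤ sqrt 2 := by
        rw [← sqrt_one]
        exact sqrt_le_sqrt (by norm_num)
      linarith
    · have h7 : 2 * sin (e / 2) * cos (d / 2) ≤ 2 * (sqrt 2 / 2) * 1 := by
        have : cos (d / 2) ≤ 1 := cos_le_one _
        have h8 : 0 ≤ cos (d / 2) := cos_nonneg_of_neg_pi_div_two_le_of_le (by linarith) (by linarith)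
        gcongr
      linarith
  have sw1 : sin w ≤ 1 := sin_le_one _
  have key : (ra + rb - c) * (c * sin e * M) ≤
      (ch rx ry (e + d) - ch rx ry (e - d)) * (c * sin e * M) := by
    calc (ra + rb - c) * (c * sin e * M) = ((ra + rb - c) * c) * (sin e * M) := by ring
      _ ≤ (ra * rb * (2 * sin (e / 2) ^ 2)) * (sin e * M) :=
          mul_le_mul_of_nonneg_right k1 (by positivity)
      _ = (ra * rb * sin e) * (2 * sin (e / 2) ^ 2 * M) := by ring
      _ ≤ (ry * (c * sin w)) * (2 * sin (e / 2) ^ 2 * M) :=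
          mul_le_mul_of_nonneg_right hy (by positivity)
      _ ≤ (ry * (c * 1)) * (2 * sin (e / 2) ^ 2 * M) := by gcongr
      _ = (2 * ry * c * sin (e / 2) ^ 2) * M := by ring
      _ ≤ (2 * ry * c * sin (e / 2) ^ 2) * (4 * cos (e / 2) ^ 2 * sin d) :=
          mul_le_mul_of_nonneg_left hMM (by positivity)
      _ = (c * sin e) * (2 * ry * (sin e * sin d)) := by
          rw [dbl]
          ring
      _ ≤ (c * sin e) * ((ch rx ry (e + d) - ch rx ry (e - d)) * M) :=
          mul_le_mul_of_nonneg_left hL (by positivity)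
      _ = _ := by ring
  exact le_of_mul_le_mul_right key (by positivity)

/-- (d): flat Theorem P, window `b2` -/
theorem ky_d {ra rx ry rb b1 b2 b3 : ℝ} (ra0 : 0 < ra) (ry0 : 0 < ry) (rb0 : 0 < rb)
    (hyx : ry ≤ rx) (b10 : 0 < b1) (b20 : 0 < b2) (b30 : 0 < b3)
    (uy : un ry ra (b1 + b2) + un ry rb b3 < π) (hb2 : b2 ≤ π / 2)
    (hΦ : b2 + (b1 + b2 + b3) ≤ π) :
    ra + rb + ch ra rx b1 + ry ≤ rx + ch ra ry (b1 + b2) + ch ra rb (π - b2) := by
  have hp := pi_pos
  have h1 := hc88 (ra := ra) (ry := ry) (rb := rb) (A := b1 + b2) (b3 := b3) (e := b2) ra0 ry0 rb0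
    (by linarith) b30 b20 (by linarith) hb2 (by linarith) uy
  have h2 := H82EF.euclid (a := ra) (y := ry) (b := rb) (φ := π - (b1 + b2)) (e := b2) ra0 ry0 rb0
    b20 (by linarith) (by linarith) ?_
  · have e1 : ra ^ 2 + ry ^ 2 + 2 * ra * ry * cos (π - (b1 + b2) + b2) =
        ra ^ 2 + ry ^ 2 - 2 * ra * ry * cos b1 := by
      rw [show π - (b1 + b2) + b2 = π - b1 by ring, cos_pi_sub]
      ring
    have e2 : ra ^ 2 + ry ^ 2 + 2 * ra * ry * cos (π - (b1 + b2)) =
        ra ^ 2 + ry ^ 2 - 2 * ra * ry * cos (b1 + b2) := by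
      rw [cos_pi_sub]
      ring
    have e3 : ra ^ 2 + rb ^ 2 + 2 * ra * rb * cos b2 =
        ra ^ 2 + rb ^ 2 - 2 * ra * rb * cos (π - b2) := by
      rw [cos_pi_sub]
      ring
    rw [e1, e2, e3] at h2
    have h3 : ch ra ry b1 + ra + rb ≤ ch ra ry (b1 + b2) + ch ra rb (π - b2) := h2
    have h4 : ch ra rx b1 ≤ ch ra ry b1 + (rx - ry) := by
      have n1 := ch_nonneg88 ra ry b1
      have q1 := ch_sq ra ry b1
      have q2 := ch_sq ra rx b1
      refine abs_le_of_sq_le_sq' ?_ (by linarith) |>.2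
      -- `ry - ra cos b1 ≤ ch`
      have h5 : ry - ra * cos b1 ≤ ch ra ry b1 := by
        refine abs_le_of_sq_le_sq' ?_ n1 |>.2
        rw [q1]
        have := sin_sq_add_cos_sq b1
        nlinarith [sq_nonneg (ra * sin b1)]
      have h6 : (rx - ry) * (ry - ra * cos b1) ≤ (rx - ry) * ch ra ry b1 :=
        mul_le_mul_of_nonneg_left h5 (by linarith)
      rw [q2]
      nlinarith
    linarith
  · rw [sin_pi_sub, show π - (b1 + b2) - b2 = π - (b1 + b2 + b2) by ring, sin_pi_sub]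
    linarith [h1]

/-! ### arcs -/

/-- (K1): the torque of `ax` is at most the torque of `xy`, hence the angle at `x` towards `a` is
acute -/
theorem ky_K1 {ra rx ry b1 b2 : ℝ} (ra0 : 0 < ra) (rx0 : 0 < rx) (ry0 : 0 < ry) (b10 : 0 < b1)
    (b11 : b1 < π) (b20 : 0 < b2) (b21 : b2 < π) (cax : ch ra rx b1 < 2) (cxy : ch rx ry b2 < 2)
    (qx : UU rx ra b1 + UU rx ry b2 < π) (hK : tq ra rx b1 ≤ tq rx ry b2) :
    ra * cos b1 < rx := by
  have hp := pi_pos
  obtain ⟨u0, u1, u2, u3⟩ := tri_un (r := rx) ra0 b10 b11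
  obtain ⟨v0, v1, v2, v3⟩ := tri_un (r := rx) ry0 b20 b21
  have c1 := tri_ch_pos (r := rx) ra0 b10 b11
  have c2 := tri_ch_pos (r := rx) ry0 b20 b21
  have cax' : ch rx ra b1 < 2 := by rw [ch_symm88]; exact cax
  -- half arcs
  have hX0 : 0 < hd rx ra b1 := by
    unfold hd
    exact arcsin_pos.2 (by linarith)
  have hX1 : hd rx ra b1 < π / 2 := by
    unfold hd
    exact arcsin_lt_pi_div_two.2 (by linarith)
  have hZ0 : 0 < hd rx ry b2 := by
    unfold hd
    exact arcsin_pos.2 (by linarith)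
  have hZ1 : hd rx ry b2 < π / 2 := by
    unfold hd
    exact arcsin_lt_pi_div_two.2 (by linarith)
  have cX : 0 < cos (hd rx ra b1) := cos_pos_of_mem_Ioo ⟨by linarith, hX1⟩
  have cZ : 0 < cos (hd rx ry b2) := cos_pos_of_mem_Ioo ⟨by linarith, hZ1⟩
  -- the torques
  have t1 : tq ra rx b1 = rx * (sin (un rx ra b1) / cos (hd rx ra b1)) := by
    unfold tq
    rw [ch_symm88 ra rx, hd_symm88 ra rx]
    rw [div_eq_iff (by positivity)]
    field_simp
    linarith [mul_comm ra (sin b1)]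
  have t2 : tq rx ry b2 = rx * (sin (un rx ry b2) / cos (hd rx ry b2)) := by
    unfold tq
    rw [div_eq_iff (by positivity)]
    field_simp
    linarith [mul_comm ry (sin b2)]
  rw [t1, t2] at hK
  have hK' : sin (un rx ra b1) / cos (hd rx ra b1) ≤ sin (un rx ry b2) / cos (hd rx ry b2) :=
    le_of_mul_le_mul_left hK rx0
  rw [div_le_div_iff₀ cX cZ] at hK'
  by_contra hneg
  push Not at hneg
  -- the angle is obtuse
  have hu : π / 2 ≤ un rx ra b1 := by
    by_contra hc
    push Not at hc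
    have h1 : 0 < cos (un rx ra b1) := cos_pos_of_mem_Ioo ⟨by linarith, hc⟩
    have h2 := mul_pos c1 h1
    linarith
  set U := un rx ra b1 with hU
  set V := un rx ry b2 with hV
  set X := hd rx ra b1 with hXd
  set Z := hd rx ry b2 with hZd
  have qx' : (U + X) + (V + Z) < π := qx
  have s1 : sin V * cos X < sin U * cos Z := by
    -- `V < π - U - X - Z`
    have hV2 : sin V < sin (U + X + Z) := by
      rw [← sin_pi_sub (U + X + Z)]
      exact sin_lt_sin_of_lt_of_le_pi_div_two (by linarith) (by linarith) (by linarith)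
    have h1 : sin (U + X + Z) = sin (U + X) * cos Z + cos (U + X) * sin Z := sin_add _ _
    have h2 : cos (U + X) ≤ 0 := by
      apply cos_nonpos_of_pi_div_two_le_of_le <;> linarith
    have h3 : 0 < sin Z := sin_pos_of_pos_of_lt_pi hZ0 (by linarith)
    have h4 : sin (U + X) ≤ sin U := by
      rw [← sin_pi_sub (U + X), ← sin_pi_sub U]
      exact sin_le_sin_of_le_of_le_pi_div_two (by linarith) (by linarith) (by linarith)
    have h5 : sin V < sin U * cos Z := by
      have h6 : cos (U + X) * sin Z ≤ 0 := mul_nonpos_of_nonpos_of_nonneg h2 h3.le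
      have h7 : sin (U + X) * cos Z ≤ sin U * cos Z := mul_le_mul_of_nonneg_right h4 cZ.le
      linarith
    have h8 : 0 ≤ sin V := sin_nonneg_of_nonneg_of_le_pi v0.le v1.le
    have h9 : cos X ≤ 1 := cos_le_one _
    nlinarith
  linarith

/-- the core: `e = π - (b1 + b2 + b3) ≤ π / 2`, `b1 + b2 < e`, `ry ≤ rx` -/
theorem kyCore {ra rx ry rb b1 b2 b3 : ℝ} (ra0 : 0 < ra) (ra2 : ra < 2) (rx0 : 0 < rx)
    (rx2 : rx < 2) (ry0 : 0 < ry) (ry2 : ry < 2) (rb0 : 0 < rb) (rb2 : rb < 2)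
    (b10 : 0 < b1) (b20 : 0 < b2) (b30 : 0 < b3) (hyx : ry ≤ rx)
    (cax : ch ra rx b1 < 2) (cxy : ch rx ry b2 < 2) (cay : ch ra ry (b1 + b2) < 2)
    (cab : ch ra rb (b1 + b2 + b3) < 2)
    (uy : un ry ra (b1 + b2) + un ry rb b3 < π)
    (k2 : h0 ry + hd ra rx b1 < h0 rx + hd ra ry (b1 + b2))
    (qx : UU rx ra b1 + UU rx ry b2 < π) (hK : tq ra rx b1 ≤ tq rx ry b2)
    (he : π - (b1 + b2 + b3) ≤ π / 2) (hA : b1 + b2 < π - (b1 + b2 + b3))
    (hZ : ch rx ry (2 * (π - (b1 + b2 + b3)) - b2) ≤ 2) :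
    h0 ra + h0 rb + h0 ry + hd ra rx b1 + hd rx ry b2 ≤
      h0 rx + hd ra ry (b1 + b2) + hd ra rb (b1 + b2 + b3) +
        hd rx ry (2 * (π - (b1 + b2 + b3)) - b2) := by
  have hp := pi_pos
  obtain ⟨e, he'⟩ : ∃ e, e = π - (b1 + b2 + b3) := ⟨_, rfl⟩
  obtain ⟨d, hd'⟩ : ∃ d, d = e - b2 := ⟨_, rfl⟩
  have eΦ : b1 + b2 + b3 = π - e := by linarith
  have eZ : 2 * (π - (b1 + b2 + b3)) - b2 = e + d := by linarith
  have eb : b2 = e - d := by linarith
  rw [← he'] at he hA
  rw [eZ] at hZ ⊢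
  have he0 : 0 < e := by linarith
  have hd0 : 0 < d := by linarith
  have hde : d < e := by linarith
  -- (b)
  have hzz : ch rx ry b2 ≤ ch rx ry (e + d) :=
    ch_mono88 rx0 ry0 b20.le (by linarith) (by linarith)
  have hb : kyg (ch rx ry b2) ≤ kyg (ch rx ry (e + d)) := kyg_mono (ch_nonneg88 _ _ _) hzz hZ
  -- (a)
  have ce : 0 ≤ cos e := cos_nonneg_of_neg_pi_div_two_le_of_le (by linarith) he
  have qab : ch ra rb (b1 + b2 + b3) ^ 2 = ra ^ 2 + rb ^ 2 + 2 * ra * rb * cos e := by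
    rw [ch_sq, eΦ, cos_pi_sub]
    ring
  have habs : 0 ≤ 2 * ra * rb * cos e := by positivity
  have ha : kyg ra + kyg rb ≤ kyg (ch ra rb (b1 + b2 + b3)) := by
    have h0' : kyg 0 = 0 := by
      unfold kyg
      simp
    have := kyg_pair (p := 0) (q := ch ra rb (b1 + b2 + b3)) (r := ra) (t := rb) ra0.le rb0.le
      le_rfl (ch_nonneg88 _ _ _) (by norm_num) cab.le
      (abs_le_of_sq_le_sq' (by rw [qab]; nlinarith [sq_nonneg rb]) (ch_nonneg88 _ _ _) |>.2)
      (abs_le_of_sq_le_sq' (by rw [qab]; nlinarith [sq_nonneg ra]) (ch_nonneg88 _ _ _) |>.2)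
      (by rw [qab]; nlinarith)
    rw [h0'] at this
    linarith
  -- unfold the arcs
  have ua : h0 ra = kyg ra + ra / 2 := by unfold h0 kyg; ring
  have ub : h0 rb = kyg rb + rb / 2 := by unfold h0 kyg; ring
  have ux : h0 rx = kyg rx + rx / 2 := by unfold h0 kyg; ring
  have uyy : h0 ry = kyg ry + ry / 2 := by unfold h0 kyg; ring
  have u1 : hd ra rx b1 = kyg (ch ra rx b1) + ch ra rx b1 / 2 := by unfold hd kyg; ring
  have u2 : hd rx ry b2 = kyg (ch rx ry b2) + ch rx ry b2 / 2 := by unfold hd kyg; ring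
  have u3 : hd ra ry (b1 + b2) = kyg (ch ra ry (b1 + b2)) + ch ra ry (b1 + b2) / 2 := by
    unfold hd kyg; ring
  have u4 : hd ra rb (b1 + b2 + b3) =
      kyg (ch ra rb (b1 + b2 + b3)) + ch ra rb (b1 + b2 + b3) / 2 := by
    unfold hd kyg; ring
  have u5 : hd rx ry (e + d) = kyg (ch rx ry (e + d)) + ch rx ry (e + d) / 2 := by
    unfold hd kyg; ring
  have uy' : un ry ra (b1 + b2) + un ry rb b3 < π := uy
  rcases le_or_gt (ch ra rx b1) (max rx (ch ra ry (b1 + b2))) with hmax | hmax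
  · -- (c)
    have cb1 : 0 ≤ cos b1 := cos_nonneg_of_neg_pi_div_two_le_of_le (by linarith) (by linarith)
    have cA : cos (b1 + b2) ≤ cos b1 :=
      cos_le_cos_of_nonneg_of_le_pi b10.le (by linarith) (by linarith)
    have hsum : ch ra rx b1 ^ 2 + ry ^ 2 ≤ rx ^ 2 + ch ra ry (b1 + b2) ^ 2 := by
      rw [ch_sq, ch_sq]
      have h1 : ry * cos (b1 + b2) ≤ rx * cos b1 := by
        calc ry * cos (b1 + b2) ≤ ry * cos b1 := mul_le_mul_of_nonneg_left cA ry0.le
          _ ≤ rx * cos b1 := mul_le_mul_of_nonneg_right hyx cb1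
      have h2 := mul_le_mul_of_nonneg_left h1 (by linarith : 0 ≤ 2 * ra)
      nlinarith
    have hc : kyg (ch ra rx b1) + kyg ry ≤ kyg rx + kyg (ch ra ry (b1 + b2)) := by
      rcases le_total rx (ch ra ry (b1 + b2)) with h | h
      · rw [max_eq_right h] at hmax
        exact kyg_pair (ch_nonneg88 _ _ _) ry0.le rx0.le (ch_nonneg88 _ _ _) rx2.le cay.le hmax
          (hyx.trans h) hsum
      · rw [max_eq_left h] at hmax
        have := kyg_pair (p := ch ra ry (b1 + b2)) (q := rx) (ch_nonneg88 ra rx b1) ry0.le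
          (ch_nonneg88 _ _ _) rx0.le cay.le rx2.le hmax hyx (by linarith)
        linarith
    -- (d), (e)
    have hdd := ky_d ra0 ry0 rb0 hyx b10 b20 b30 uy (by linarith) (by linarith)
    have hee := ky_e (A := b1 + b2) (b3 := b3) (e := e) (d := d) ra0 ry0 rb0 hyx (by linarith) b30
      uy eΦ he hA hd0 hde
    rw [← eb] at hee
    rw [ua, ub, ux, uyy, u1, u2, u3, u4, u5]
    have e5 : ch ra rb (b1 + b2 + b3) = ch ra rb (π - e) := by rw [eΦ]
    rw [e5] at ha ⊢
    linarith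
  · -- (f)
    have hrx : rx < ch ra rx b1 := (le_max_left _ _).trans_lt hmax
    have hk := ky_K1 ra0 rx0 ry0 b10 (by linarith) b20 (by linarith) cax cxy qx hK
    have h1 : 2 * rx * cos b1 < ra := by
      have h2 : rx ^ 2 < ch ra rx b1 ^ 2 := by
        have := ch_nonneg88 ra rx b1
        nlinarith
      rw [ch_sq] at h2
      have h3 : ra * (2 * rx * cos b1) < ra * ra := by nlinarith
      exact lt_of_mul_lt_mul_left h3 ra0.le
    have hb1 : π / 4 ≤ b1 := by
      by_contra hc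
      push Not at hc
      have h4 : sqrt 2 / 2 < cos b1 := by
        rw [← cos_pi_div_four]
        exact cos_lt_cos_of_nonneg_of_le_pi b10.le (by linarith) hc
      have r2 : sqrt 2 ^ 2 = 2 := sq_sqrt (by norm_num)
      have r20 : 0 < sqrt 2 := sqrt_pos.2 (by norm_num)
      have h5 : 0 < cos b1 := by linarith [div_pos r20 two_pos]
      -- `2 rx cos b1 < ra`, `ra cos b1 < rx`
      have h6 : 2 * (ra * cos b1) * cos b1 < ra := by
        have := mul_lt_mul_of_pos_right hk (by positivity : 0 < 2 * cos b1)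
        nlinarith
      have h7 : 1 < 2 * cos b1 ^ 2 := by nlinarith [mul_pos r20 r20]
      nlinarith
    have hff := ky_f (A := b1 + b2) (b3 := b3) (e := e) (d := d) ra0 ry0 rb0 hyx (by linarith) b30
      uy eΦ he hA (by linarith) hde
    rw [← eb] at hff
    rw [ua, ub, u2, u4, u5]
    have e5 : ch ra rb (b1 + b2 + b3) = ch ra rb (π - e) := by rw [eΦ]
    rw [e5] at ha ⊢
    linarith

/-- `e = π - (b1 + b2 + b3) ≤ π / 2`: the two forms in the fan of `q` -/
theorem kyE1 {ra rx ry rb b1 b2 b3 : ℝ} (hq : WQD ra rx ry rb b1 b2 b3)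
    (he : π - (b1 + b2 + b3) ≤ π / 2) (hZ : ch rx ry (2 * (π - (b1 + b2 + b3)) - b2) ≤ 2) :
    (ry ≤ rx → b1 + b2 < π - (b1 + b2 + b3) → tq ra rx b1 ≤ tq rx ry b2 →
      h0 ra + h0 rb + h0 ry + hd ra rx b1 + hd rx ry b2 ≤
      h0 rx + hd ra ry (b1 + b2) + hd ra rb (b1 + b2 + b3) +
        hd rx ry (2 * (π - (b1 + b2 + b3)) - b2)) ∧
    (rx ≤ ry → b2 + b3 < π - (b1 + b2 + b3) → tq ry rb b3 ≤ tq rx ry b2 →
      h0 ra + h0 rb + h0 rx + hd ry rb b3 + hd rx ry b2 ≤
      h0 ry + hd rx rb (b2 + b3) + hd ra rb (b1 + b2 + b3) +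
        hd rx ry (2 * (π - (b1 + b2 + b3)) - b2)) := by
  constructor
  · intro h hA hK
    exact kyCore hq.ra0 hq.ra2 hq.rx0 hq.rx2 hq.ry0 hq.ry2 hq.rb0 hq.rb2 hq.b10 hq.b20 hq.b30 h
      hq.cax2 hq.cxy2 hq.cay2 hq.cab2 (by have := hq.uy1; have := hq.uy2; linarith) hq.k2 hq.qx hK
      he hA hZ
  · intro h hB hK
    have e1 : b3 + b2 = b2 + b3 := by ring
    have e2 : b3 + b2 + b1 = b1 + b2 + b3 := by ring
    have hc1 : ch rb ry b3 < 2 := by rw [ch_symm88]; exact hq.cyb2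
    have hc2 : ch ry rx b2 < 2 := by rw [ch_symm88]; exact hq.cxy2
    have hc3 : ch rb rx (b3 + b2) < 2 := by rw [ch_symm88, e1]; exact hq.cxb2
    have hc4 : ch rb ra (b3 + b2 + b1) < 2 := by rw [ch_symm88, e2]; exact hq.cab2
    have hk1 : h0 rx + hd rb ry b3 < h0 ry + hd rb rx (b3 + b2) := by
      rw [hd_symm88 rb ry, hd_symm88 rb rx, e1]
      exact hq.k1
    have hK' : tq rb ry b3 ≤ tq ry rx b2 := by
      have t1 : tq rb ry b3 = tq ry rb b3 := by
        unfold tq
        rw [ch_symm88, hd_symm88, mul_comm rb ry]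
      have t2 : tq ry rx b2 = tq rx ry b2 := by
        unfold tq
        rw [ch_symm88, hd_symm88, mul_comm ry rx]
      rw [t1, t2]
      exact hK
    have hZ' : ch ry rx (2 * (π - (b3 + b2 + b1)) - b2) ≤ 2 := by
      rw [ch_symm88, e2]
      exact hZ
    have := kyCore hq.rb0 hq.rb2 hq.ry0 hq.ry2 hq.rx0 hq.rx2 hq.ra0 hq.ra2 hq.b30 hq.b20 hq.b10 h
      hc1 hc2 hc3 hc4 (by have := hq.ux1; have := hq.ux2; rw [e1]; linarith) hk1
      (by have := hq.qy; linarith) hK' (by rw [e2]; exact he) (by rw [e2, e1]; exact hB) hZ'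
    have e3 : b2 + b3 + b1 = b1 + b2 + b3 := by ring
    rw [hd_symm88 rb ry, hd_symm88 ry rx, hd_symm88 rb rx, hd_symm88 rb ra, hd_symm88 ry rx, e1, e3]
      at this
    linarith

end E5
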