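import Pool.Agent.Helper35.E5.RQA
import Pool.Agent.Helper35.E5.KALS

/-!
MP_efd95c_co, wheels of type C: second half of the row RQ (order of the arcs and of the chords at
the vertices, strict quadrilateral inequalities, lemma V3), given the polar coordinates of the fan
and the statements `RC` for the triples.
-/

set_option autoImplicit false

open scoped MeasureTheory ENNReal Topology
open Complex

noncomputable section

namespace E5
namespace R35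

/-- the basic fields of `WQD` and the triples -/
structure PQ35 (ra rx ry rb b1 b2 b3 : ℝ) : Prop where
  ra0 : 0 < ra
  rx0 : 0 < rx
  ry0 : 0 < ry
  rb0 : 0 < rb
  ra2 : ra < 2
  rx2 : rx < 2
  ry2 : ry < 2
  rb2 : rb < 2
  b10 : 0 < b1
  b20 : 0 < b2
  b30 : 0 < b3
  bs : b1 + b2 + b3 < Real.pi
  cax2 : ch ra rx b1 < 2
  cxy2 : ch rx ry b2 < 2
  cyb2 : ch ry rb b3 < 2
  cay2 : ch ra ry (b1 + b2) < 2
  cxb2 : ch rx rb (b2 + b3) < 2
  cab2 : ch ra rb (b1 + b2 + b3) < 2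
  q0ax : RC (h0 ra) (h0 rx) (hd ra rx b1)
  q0xy : RC (h0 rx) (h0 ry) (hd rx ry b2)
  q0yb : RC (h0 ry) (h0 rb) (hd ry rb b3)
  q0ay : RC (h0 ra) (h0 ry) (hd ra ry (b1 + b2))
  q0xb : RC (h0 rx) (h0 rb) (hd rx rb (b2 + b3))
  q0ab : RC (h0 ra) (h0 rb) (hd ra rb (b1 + b2 + b3))
  qaxy : RC (hd ra rx b1) (hd rx ry b2) (hd ra ry (b1 + b2))
  qxyb : RC (hd rx ry b2) (hd ry rb b3) (hd rx rb (b2 + b3))
  qaxb : RC (hd ra rx b1) (hd rx rb (b2 + b3)) (hd ra rb (b1 + b2 + b3))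
  qayb : RC (hd ra ry (b1 + b2)) (hd ry rb b3) (hd ra rb (b1 + b2 + b3))

/-- the fields of `WQD` which are proved here -/
structure PR35 (ra rx ry rb b1 b2 b3 : ℝ) : Prop where
  a1 : h0 ra < UU ra rb (b1 + b2 + b3)
  a2 : UU ra rb (b1 + b2 + b3) < UU ra ry (b1 + b2)
  a3 : UU ra ry (b1 + b2) < UU ra rx b1
  x1 : h0 rx < UU rx ra b1
  x2 : h0 rx < UU rx rb (b2 + b3)
  x3 : UU rx rb (b2 + b3) < UU rx ry b2
  x4 : 2 * hd rx rb (b2 + b3) < UU rx rb (b2 + b3) + UU rx ra b1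
  y1 : h0 ry < UU ry rb b3
  y2 : h0 ry < UU ry ra (b1 + b2)
  y3 : UU ry ra (b1 + b2) < UU ry rx b2
  y4 : 2 * hd ry ra (b1 + b2) < UU ry ra (b1 + b2) + UU ry rb b3
  z1 : h0 rb < UU rb ra (b1 + b2 + b3)
  z2 : UU rb ra (b1 + b2 + b3) < UU rb rx (b2 + b3)
  z3 : UU rb rx (b2 + b3) < UU rb ry b3
  ua1 : un ra rb (b1 + b2 + b3) < un ra ry (b1 + b2)
  ua2 : un ra ry (b1 + b2) < un ra rx b1
  ux1 : un rx rb (b2 + b3) < un rx ry b2
  ux2 : un rx ra b1 + un rx ry b2 < Real.pi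
  uy1 : un ry ra (b1 + b2) < un ry rx b2
  uy2 : un ry rx b2 + un ry rb b3 < Real.pi
  uz1 : un rb ra (b1 + b2 + b3) < un rb rx (b2 + b3)
  uz2 : un rb rx (b2 + b3) < un rb ry b3
  k1 : h0 rx + hd ry rb b3 < h0 ry + hd rx rb (b2 + b3)
  k2 : h0 ry + hd ra rx b1 < h0 rx + hd ra ry (b1 + b2)
  k3 : h0 ra + hd rx rb (b2 + b3) < h0 rx + hd ra rb (b1 + b2 + b3)
  k4 : h0 rb + hd ra rx b1 < h0 rx + hd ra rb (b1 + b2 + b3)
  k5 : h0 rb + hd ra ry (b1 + b2) < h0 ry + hd ra rb (b1 + b2 + b3)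
  k6 : h0 ra + hd ry rb b3 < h0 ry + hd ra rb (b1 + b2 + b3)
  k7 : hd ra rx b1 + hd ry rb b3 < hd ra ry (b1 + b2) + hd rx rb (b2 + b3)
  k8 : hd rx ry b2 + hd ra rb (b1 + b2 + b3) < hd ra ry (b1 + b2) + hd rx rb (b2 + b3)
  k9 : h0 ra + hd rx ry b2 < h0 rx + hd ra ry (b1 + b2)
  k10 : h0 rb + hd rx ry b2 < h0 ry + hd rx rb (b2 + b3)
  vb1 : Real.cos (hd rb ra (b1 + b2 + b3)) * Real.sin (un rb ry b3) <
    Real.cos (hd rb ry b3) * Real.sin (un rb ra (b1 + b2 + b3)) +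
    Real.cos (h0 rb) * Real.sin (un rb ry b3 - un rb ra (b1 + b2 + b3))
  vb2 : Real.cos (hd rb rx (b2 + b3)) * Real.sin (un rb ry b3) <
    Real.cos (hd rb ry b3) * Real.sin (un rb rx (b2 + b3)) +
    Real.cos (h0 rb) * Real.sin (un rb ry b3 - un rb rx (b2 + b3))
  va1 : Real.cos (hd ra rb (b1 + b2 + b3)) * Real.sin (un ra rx b1) <
    Real.cos (hd ra rx b1) * Real.sin (un ra rb (b1 + b2 + b3)) +
    Real.cos (h0 ra) * Real.sin (un ra rx b1 - un ra rb (b1 + b2 + b3))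
  va2 : Real.cos (hd ra ry (b1 + b2)) * Real.sin (un ra rx b1) <
    Real.cos (hd ra rx b1) * Real.sin (un ra ry (b1 + b2)) +
    Real.cos (h0 ra) * Real.sin (un ra rx b1 - un ra ry (b1 + b2))

theorem sgt35 {x : ℝ} (h : 0 < Real.sin x) (h1 : -Real.pi < x) : 0 < x := by
  by_contra hn
  push Not at hn
  have := Real.sin_nonpos_of_nonpos_of_neg_pi_le hn h1.le
  linarith

theorem slt35 {x : ℝ} (h : 0 < Real.sin x) (h1 : x < 2 * Real.pi) : x < Real.pi := by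
  by_contra hn
  push Not at hn
  have h2 := Real.sin_nonneg_of_nonneg_of_le_pi (x := x - Real.pi) (by linarith) (by linarith)
  rw [Real.sin_sub_pi] at h2
  linarith

/-- orientation of two chords -/
theorem spos35 {z1 z2 : ℂ} {β γ s t : ℝ} (h : 0 < crs z1 z2)
    (h1 : z1 = ((2 * Real.sin β : ℝ) : ℂ) * AX.e s) (h2 : z2 = ((2 * Real.sin γ : ℝ) : ℂ) * AX.e t)
    (hb : 0 < Real.sin β) (hc : 0 < Real.sin γ) : 0 < Real.sin (t - s) := by
  rw [h1, h2, crs_pol] at h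
  exact pos_of_mul_pos_right h (by positivity)

/-- lemma V3 for chords in polar form -/
theorem v3pol35 {z1 z2 z3 : ℂ} {β1 β2 β3 s1 s2 s3 : ℝ}
    (h : crs z1 z3 * H22.fn z2 < crs z2 z3 * H22.fn z1 + crs z1 z2 * H22.fn z3)
    (h1 : z1 = ((2 * Real.sin β1 : ℝ) : ℂ) * AX.e s1)
    (h2 : z2 = ((2 * Real.sin β2 : ℝ) : ℂ) * AX.e s2)
    (h3 : z3 = ((2 * Real.sin β3 : ℝ) : ℂ) * AX.e s3)
    (p1 : 0 < Real.sin β1) (p2 : 0 < Real.sin β2) (p3 : 0 < Real.sin β3)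
    (r1 : 0 ≤ β1 ∧ β1 ≤ Real.pi / 2) (r2 : 0 ≤ β2 ∧ β2 ≤ Real.pi / 2)
    (r3 : 0 ≤ β3 ∧ β3 ≤ Real.pi / 2) :
    Real.sin (s3 - s1) * Real.cos β2 < Real.sin (s3 - s2) * Real.cos β1 +
      Real.sin (s2 - s1) * Real.cos β3 := by
  rw [h1, h2, h3, crs_pol, crs_pol, crs_pol, fn_pol _ r1.1 r1.2, fn_pol _ r2.1 r2.2,
    fn_pol _ r3.1 r3.2] at h
  have hp : 0 < 8 * (Real.sin β1 * Real.sin β2 * Real.sin β3) := by positivity
  have h4 : 8 * (Real.sin β1 * Real.sin β2 * Real.sin β3) *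
      (Real.sin (s3 - s1) * Real.cos β2) < 8 * (Real.sin β1 * Real.sin β2 * Real.sin β3) *
      (Real.sin (s3 - s2) * Real.cos β1 + Real.sin (s2 - s1) * Real.cos β3) := by
    nlinarith [h]
  exact lt_of_mul_lt_mul_left h4 hp.le

theorem RQ35 {q : Fin 5 → ℂ} {aq bq : ℤ → ℝ} (H : HD q 5 gQ aq bq) (hab : ∀ k, aq k < bq k)
    (h0q : q 0 = 0) {ra rx ry rb φ b1 b2 b3 : ℝ} (P : PQ35 ra rx ry rb b1 b2 b3)
    (hq1 : q 1 = (ra : ℂ) * AX.e φ) (hq2 : q 2 = (rx : ℂ) * AX.e (φ + b1))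
    (hq3 : q 3 = (ry : ℂ) * AX.e (φ + b1 + b2)) (hq4 : q 4 = (rb : ℂ) * AX.e (φ + b1 + b2 + b3)) :
    PR35 ra rx ry rb b1 b2 b3 := by
  obtain ⟨ra0, rx0, ry0, rb0, ra2, rx2, ry2, rb2, b10, b20, b30, bs, cax2, cxy2, cyb2, cay2, cxb2,
    cab2, q0ax, q0xy, q0yb, q0ay, q0xb, q0ab, qaxy, qxyb, qaxb, qayb⟩ := P
  have hpi := Real.pi_pos
  -- triangle data
  have Tax := TRI ra rx b1 ra0 rx0 b10 (by linarith) cax2
  have Txa := TRI rx ra b1 rx0 ra0 b10 (by linarith) (by rw [ch_comm]; exact cax2)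
  have Txy := TRI rx ry b2 rx0 ry0 b20 (by linarith) cxy2
  have Tyx := TRI ry rx b2 ry0 rx0 b20 (by linarith) (by rw [ch_comm]; exact cxy2)
  have Tyb := TRI ry rb b3 ry0 rb0 b30 (by linarith) cyb2
  have Tby := TRI rb ry b3 rb0 ry0 b30 (by linarith) (by rw [ch_comm]; exact cyb2)
  have Tay := TRI ra ry (b1 + b2) ra0 ry0 (by linarith) (by linarith) cay2
  have Tya := TRI ry ra (b1 + b2) ry0 ra0 (by linarith) (by linarith) (by rw [ch_comm]; exact cay2)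
  have Txb := TRI rx rb (b2 + b3) rx0 rb0 (by linarith) (by linarith) cxb2
  have Tbx := TRI rb rx (b2 + b3) rb0 rx0 (by linarith) (by linarith) (by rw [ch_comm]; exact cxb2)
  have Tab := TRI ra rb (b1 + b2 + b3) ra0 rb0 (by linarith) (by linarith) cab2
  have Tba := TRI rb ra (b1 + b2 + b3) rb0 ra0 (by linarith) (by linarith)
    (by rw [ch_comm]; exact cab2)
  obtain ⟨-, -, dax0, dax1, uax0, uax1, -⟩ := Tax
  obtain ⟨-, -, -, -, uxa0, uxa1, -⟩ := Txa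
  obtain ⟨-, -, dxy0, dxy1, uxy0, uxy1, -⟩ := Txy
  obtain ⟨-, -, -, -, uyx0, uyx1, -⟩ := Tyx
  obtain ⟨-, -, dyb0, dyb1, uyb0, uyb1, -⟩ := Tyb
  obtain ⟨-, -, -, -, uby0, uby1, -⟩ := Tby
  obtain ⟨-, -, day0, day1, uay0, uay1, -⟩ := Tay
  obtain ⟨-, -, -, -, uya0, uya1, -⟩ := Tya
  obtain ⟨-, -, dxb0, dxb1, uxb0, uxb1, -⟩ := Txb
  obtain ⟨-, -, -, -, ubx0, ubx1, -⟩ := Tbx
  obtain ⟨-, -, dab0, dab1, uab0, uab1, -⟩ := Tab
  obtain ⟨-, -, -, -, uba0, uba1, -⟩ := Tba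
  -- half arcs of the spokes
  have hh : ∀ r : ℝ, 0 < r → r < 2 → 0 < h0 r ∧ h0 r < Real.pi / 2 := by
    intro r h1 h2
    unfold h0
    exact ⟨Real.arcsin_pos.2 (by linarith), Real.arcsin_lt_pi_div_two.2 (by linarith)⟩
  obtain ⟨ha0, ha1⟩ := hh ra ra0 ra2
  obtain ⟨hx0, hx1⟩ := hh rx rx0 rx2
  obtain ⟨hy0, hy1⟩ := hh ry ry0 ry2
  obtain ⟨hb0, hb1⟩ := hh rb rb0 rb2
  have sp : ∀ d : ℝ, 0 < d → d < Real.pi / 2 → 0 < Real.sin d := fun d h1 h2 =>
    Real.sin_pos_of_pos_of_lt_pi h1 (by linarith)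
  -- chords in polar form
  obtain ⟨cax, cxa⟩ := dir_pol φ ra0 rx0 b10 (by linarith) cax2
  obtain ⟨cxy, cyx⟩ := dir_pol (φ + b1) rx0 ry0 b20 (by linarith) cxy2
  obtain ⟨cyb, cby⟩ := dir_pol (φ + b1 + b2) ry0 rb0 b30 (by linarith) cyb2
  obtain ⟨cay, cya⟩ := dir_pol φ ra0 ry0 (θ := b1 + b2) (by linarith) (by linarith) cay2
  obtain ⟨cxb, cbx⟩ := dir_pol (φ + b1) rx0 rb0 (θ := b2 + b3) (by linarith) (by linarith) cxb2
  obtain ⟨cab, cba⟩ := dir_pol φ ra0 rb0 (θ := b1 + b2 + b3) (by linarith) (by linarith) cab2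
  have e12 : φ + (b1 + b2) = φ + b1 + b2 := by ring
  have e23 : φ + b1 + (b2 + b3) = φ + b1 + b2 + b3 := by ring
  have e13 : φ + (b1 + b2 + b3) = φ + b1 + b2 + b3 := by ring
  rw [e12] at cay cya
  rw [e23] at cxb cbx
  rw [e13] at cab cba
  rw [← hq1, ← hq2] at cax cxa
  rw [← hq2, ← hq3] at cxy cyx
  rw [← hq3, ← hq4] at cyb cby
  rw [← hq1, ← hq3] at cay cya
  rw [← hq2, ← hq4] at cxb cbx
  rw [← hq1, ← hq4] at cab cba
  have ca0 := hub_pol φ ra0.le ra2.le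
  have cx0 := hub_pol (φ + b1) rx0.le rx2.le
  have cy0 := hub_pol (φ + b1 + b2) ry0.le ry2.le
  have cb0 := hub_pol (φ + b1 + b2 + b3) rb0.le rb2.le
  rw [← h0q, ← hq1] at ca0
  rw [← h0q, ← hq2] at cx0
  rw [← h0q, ← hq3] at cy0
  rw [← h0q, ← hq4] at cb0
  have sax := sp _ dax0 dax1
  have sxy := sp _ dxy0 dxy1
  have syb := sp _ dyb0 dyb1
  have say := sp _ day0 day1
  have sxb := sp _ dxb0 dxb1
  have sab := sp _ dab0 dab1
  have sa0 := sp _ ha0 ha1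
  have sx0 := sp _ hx0 hx1
  have sy0 := sp _ hy0 hy1
  have sb0 := sp _ hb0 hb1
  -- distances
  have D : ∀ (u v : ℂ) (d s : ℝ), 0 < Real.sin d → v - u = ((2 * Real.sin d : ℝ) : ℂ) * AX.e s →
      dist u v = 2 * Real.sin d := by
    intro u v d s hd hv
    rw [dist_comm, dist_eq_norm, hv, norm_pol _ (by linarith)]
  have Dax := D _ _ _ _ sax cax
  have Dxy := D _ _ _ _ sxy cxy
  have Dyb := D _ _ _ _ syb cyb
  have Day := D _ _ _ _ say cay
  have Dxb := D _ _ _ _ sxb cxb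
  have Dab := D _ _ _ _ sab cab
  have D0a := D _ _ _ _ sa0 ca0
  have D0x := D _ _ _ _ sx0 cx0
  have D0y := D _ _ _ _ sy0 cy0
  have D0b := D _ _ _ _ sb0 cb0
  -- arcs
  have L : ∀ (u v : ℂ) (d : ℝ), 0 < d → d < Real.pi / 2 → dist u v = 2 * Real.sin d →
      lg u v = 2 * d := by
    intro u v d h1 h2 h3
    rw [lg_eq, h3, mul_div_cancel_left₀ _ (two_ne_zero), Real.arcsin_sin (by linarith)
      (by linarith)]
  have Lax := L _ _ _ dax0 dax1 Dax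
  have Lxy := L _ _ _ dxy0 dxy1 Dxy
  have Lyb := L _ _ _ dyb0 dyb1 Dyb
  have Lay := L _ _ _ day0 day1 Day
  have Lxb := L _ _ _ dxb0 dxb1 Dxb
  have Lab := L _ _ _ dab0 dab1 Dab
  have L0a := L _ _ _ ha0 ha1 (by rw [dist_comm]; exact D0a)
  have L0x := L _ _ _ hx0 hx1 (by rw [dist_comm]; exact D0x)
  have L0y := L _ _ _ hy0 hy1 (by rw [dist_comm]; exact D0y)
  have L0b := L _ _ _ hb0 hb1 (by rw [dist_comm]; exact D0b)
  -- orientations
  have O := ORI 5 q 5 gQ aq bq H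
  have oa1 : 0 < crs (q 3 - q 1) (q 4 - q 1) := O 1 3 4 (by norm_num) (by norm_num) (by norm_num)
  have oa2 : 0 < crs (q 2 - q 1) (q 3 - q 1) := O 1 2 3 (by norm_num) (by norm_num) (by norm_num)
  have ox1 : 0 < crs (q 3 - q 2) (q 4 - q 2) := O 2 3 4 (by norm_num) (by norm_num) (by norm_num)
  have ox2 : 0 < crs (q 3 - q 2) (q 1 - q 2) := O 2 3 6 (by norm_num) (by norm_num) (by norm_num)
  have oy1 : 0 < crs (q 1 - q 3) (q 2 - q 3) := O 3 6 7 (by norm_num) (by norm_num) (by norm_num)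
  have oy2 : 0 < crs (q 4 - q 3) (q 2 - q 3) := O 3 4 7 (by norm_num) (by norm_num) (by norm_num)
  have oz1 : 0 < crs (q 1 - q 4) (q 2 - q 4) := O 4 6 7 (by norm_num) (by norm_num) (by norm_num)
  have oz2 : 0 < crs (q 2 - q 4) (q 3 - q 4) := O 4 7 8 (by norm_num) (by norm_num) (by norm_num)
  have ua1 : un ra rb (b1 + b2 + b3) < un ra ry (b1 + b2) := by
    have := sgt35 (spos35 oa1 cay cab say sab) (by linarith)
    linarith
  have ua2 : un ra ry (b1 + b2) < un ra rx b1 := by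
    have := sgt35 (spos35 oa2 cax cay sax say) (by linarith)
    linarith
  have ux1 : un rx rb (b2 + b3) < un rx ry b2 := by
    have := sgt35 (spos35 ox1 cxy cxb sxy sxb) (by linarith)
    linarith
  have ux2 : un rx ra b1 + un rx ry b2 < Real.pi := by
    have := slt35 (spos35 ox2 cxy cxa sxy sax) (by linarith)
    linarith
  have uy1 : un ry ra (b1 + b2) < un ry rx b2 := by
    have := sgt35 (spos35 oy1 cya cyx say sxy) (by linarith)
    linarith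
  have uy2 : un ry rx b2 + un ry rb b3 < Real.pi := by
    have := slt35 (spos35 oy2 cyb cyx syb sxy) (by linarith)
    linarith
  have uz1 : un rb ra (b1 + b2 + b3) < un rb rx (b2 + b3) := by
    have := sgt35 (spos35 oz1 cba cbx sab sxb) (by linarith)
    linarith
  have uz2 : un rb rx (b2 + b3) < un rb ry b3 := by
    have := sgt35 (spos35 oz2 cbx cby sxb syb) (by linarith)
    linarith
  -- strict quadrilateral inequalities
  have K1 : ∀ i j k l : ℤ, i < j → j < k → k < l → l < i + 5 →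
      lg (q (gQ i)) (q (gQ j)) + lg (q (gQ k)) (q (gQ l)) <
        lg (q (gQ i)) (q (gQ k)) + lg (q (gQ j)) (q (gQ l)) := fun i j k l h1 h2 h3 h4 =>
    kalS H hab h1 h2 h3 (by push_cast; exact h4)
  have K2 : ∀ i j k l : ℤ, i < j → j < k → k < l → l < i + 5 →
      lg (q (gQ i)) (q (gQ l)) + lg (q (gQ j)) (q (gQ k)) <
        lg (q (gQ i)) (q (gQ k)) + lg (q (gQ j)) (q (gQ l)) := fun i j k l h1 h2 h3 h4 =>
    kalS' H hab h1 h2 h3 (by push_cast; exact h4)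
  have k1 : lg (q 0) (q 2) + lg (q 3) (q 4) < lg (q 0) (q 3) + lg (q 2) (q 4) :=
    K1 0 2 3 4 (by norm_num) (by norm_num) (by norm_num) (by norm_num)
  have k2 : lg (q 0) (q 3) + lg (q 1) (q 2) < lg (q 0) (q 2) + lg (q 1) (q 3) :=
    K2 0 1 2 3 (by norm_num) (by norm_num) (by norm_num) (by norm_num)
  have k3 : lg (q 0) (q 1) + lg (q 2) (q 4) < lg (q 0) (q 2) + lg (q 1) (q 4) :=
    K1 0 1 2 4 (by norm_num) (by norm_num) (by norm_num) (by norm_num)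
  have k4 : lg (q 0) (q 4) + lg (q 1) (q 2) < lg (q 0) (q 2) + lg (q 1) (q 4) :=
    K2 0 1 2 4 (by norm_num) (by norm_num) (by norm_num) (by norm_num)
  have k5 : lg (q 0) (q 4) + lg (q 1) (q 3) < lg (q 0) (q 3) + lg (q 1) (q 4) :=
    K2 0 1 3 4 (by norm_num) (by norm_num) (by norm_num) (by norm_num)
  have k6 : lg (q 0) (q 1) + lg (q 3) (q 4) < lg (q 0) (q 3) + lg (q 1) (q 4) :=
    K1 0 1 3 4 (by norm_num) (by norm_num) (by norm_num) (by norm_num)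
  have k7 : lg (q 1) (q 2) + lg (q 3) (q 4) < lg (q 1) (q 3) + lg (q 2) (q 4) :=
    K1 1 2 3 4 (by norm_num) (by norm_num) (by norm_num) (by norm_num)
  have k8 : lg (q 1) (q 4) + lg (q 2) (q 3) < lg (q 1) (q 3) + lg (q 2) (q 4) :=
    K2 1 2 3 4 (by norm_num) (by norm_num) (by norm_num) (by norm_num)
  have k9 : lg (q 0) (q 1) + lg (q 2) (q 3) < lg (q 0) (q 2) + lg (q 1) (q 3) :=
    K1 0 1 2 3 (by norm_num) (by norm_num) (by norm_num) (by norm_num)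
  have k10 : lg (q 0) (q 4) + lg (q 2) (q 3) < lg (q 0) (q 3) + lg (q 2) (q 4) :=
    K2 0 2 3 4 (by norm_num) (by norm_num) (by norm_num) (by norm_num)
  rw [L0x, Lyb, L0y, Lxb] at k1
  rw [L0y, Lax, L0x, Lay] at k2
  rw [L0a, Lxb, L0x, Lab] at k3
  rw [L0b, Lax, L0x, Lab] at k4
  rw [L0b, Lay, L0y, Lab] at k5
  rw [L0a, Lyb, L0y, Lab] at k6
  rw [Lax, Lyb, Lay, Lxb] at k7
  rw [Lab, Lxy, Lay, Lxb] at k8
  rw [L0a, Lxy, L0x, Lay] at k9
  rw [L0b, Lxy, L0y, Lxb] at k10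
  -- lemma V3
  have V := fun (i j k l : ℤ) (h1 : i < j) (h2 : j < k) (h3 : k < l) (h4 : l < i + (5 : ℕ)) =>
    H22.v3_hd H hab h1 h2 h3 h4
  have wb1 : crs (q 0 - q 4) (q 3 - q 4) * H22.fn (q 1 - q 4) <
      crs (q 1 - q 4) (q 3 - q 4) * H22.fn (q 0 - q 4) +
      crs (q 0 - q 4) (q 1 - q 4) * H22.fn (q 3 - q 4) :=
    V 4 5 6 8 (by norm_num) (by norm_num) (by norm_num) (by norm_num)
  have wb2 : crs (q 0 - q 4) (q 3 - q 4) * H22.fn (q 2 - q 4) <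
      crs (q 2 - q 4) (q 3 - q 4) * H22.fn (q 0 - q 4) +
      crs (q 0 - q 4) (q 2 - q 4) * H22.fn (q 3 - q 4) :=
    V 4 5 7 8 (by norm_num) (by norm_num) (by norm_num) (by norm_num)
  have wa1 : crs (q 2 - q 1) (q 0 - q 1) * H22.fn (q 4 - q 1) <
      crs (q 4 - q 1) (q 0 - q 1) * H22.fn (q 2 - q 1) +
      crs (q 2 - q 1) (q 4 - q 1) * H22.fn (q 0 - q 1) :=
    V 1 2 4 5 (by norm_num) (by norm_num) (by norm_num) (by norm_num)
  have wa2 : crs (q 2 - q 1) (q 0 - q 1) * H22.fn (q 3 - q 1) <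
      crs (q 3 - q 1) (q 0 - q 1) * H22.fn (q 2 - q 1) +
      crs (q 2 - q 1) (q 3 - q 1) * H22.fn (q 0 - q 1) :=
    V 1 2 3 5 (by norm_num) (by norm_num) (by norm_num) (by norm_num)
  have vb1 := v3pol35 wb1 cb0 cba cby sb0 sab syb ⟨hb0.le, hb1.le⟩ ⟨dab0.le, dab1.le⟩
    ⟨dyb0.le, dyb1.le⟩
  have vb2 := v3pol35 wb2 cb0 cbx cby sb0 sxb syb ⟨hb0.le, hb1.le⟩ ⟨dxb0.le, dxb1.le⟩
    ⟨dyb0.le, dyb1.le⟩
  have va1 := v3pol35 wa1 cax cab ca0 sax sab sa0 ⟨dax0.le, dax1.le⟩ ⟨dab0.le, dab1.le⟩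
    ⟨ha0.le, ha1.le⟩
  have va2 := v3pol35 wa2 cax cay ca0 sax say sa0 ⟨dax0.le, dax1.le⟩ ⟨day0.le, day1.le⟩
    ⟨ha0.le, ha1.le⟩
  -- the arcs at the vertices
  have D0a' : dist (q 0) (q 1) = 2 * Real.sin (h0 ra) := by rw [dist_comm]; exact D0a
  have Dab' : dist (q 4) (q 1) = 2 * Real.sin (hd ra rb (b1 + b2 + b3)) := by
    rw [dist_comm]; exact Dab
  have ta1 := tri35 cab ca0 D0b hb0 dab0 ha0 (by linarith) (by linarith) (RC_rot q0ab)
  have ta2 := tri35 cay cab Dyb dyb0 day0 dab0 (by linarith) (by linarith) (RC_swap qayb)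
  have ta3 := tri35 cax cay Dxy dxy0 dax0 day0 (by linarith) (by linarith) (RC_swap qaxy)
  have tx1 := tri35 cx0 cxa D0a' ha0 hx0 dax0 (by linarith) (by linarith) q0ax
  have tx2 := tri35 cxb cx0 D0b hb0 dxb0 hx0 (by linarith) (by linarith) (RC_rot q0xb)
  have tx3 := tri35 cxy cxb Dyb dyb0 dxy0 dxb0 (by linarith) (by linarith) (RC_swap qxyb)
  have tx4 := tri35 cxb cxa Dab' dab0 dxb0 dax0 (by linarith) (by linarith)
    (RC_swap (RC_rot qaxb))
  have ty1 := tri35 cyb cy0 D0b hb0 dyb0 hy0 (by linarith) (by linarith) (RC_rot q0yb)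
  have ty2 := tri35 cy0 cya D0a' ha0 hy0 day0 (by linarith) (by linarith) q0ay
  have ty3 := tri35 cya cyx Dax dax0 day0 dxy0 (by linarith) (by linarith)
    (RC_swap (RC_rot (RC_rot qaxy)))
  have ty4 := tri35 cyb cya Dab' dab0 dyb0 day0 (by linarith) (by linarith)
    (RC_swap (RC_rot qayb))
  have tz1 := tri35 cb0 cba D0a' ha0 hb0 dab0 (by linarith) (by linarith) q0ab
  have tz2 := tri35 cba cbx Dax dax0 dab0 dxb0 (by linarith) (by linarith)
    (RC_swap (RC_rot (RC_rot qaxb)))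
  have tz3 := tri35 cbx cby Dxy dxy0 dxb0 dyb0 (by linarith) (by linarith)
    (RC_swap (RC_rot (RC_rot qxyb)))
  exact
  { a1 := by unfold UU; linarith [ta1.2.1]
    a2 := by unfold UU; linarith [ta2.2.1]
    a3 := by unfold UU; linarith [ta3.2.1]
    x1 := by unfold UU; rw [hd_comm rx ra]; linarith [tx1.1]
    x2 := by unfold UU; linarith [tx2.2.1]
    x3 := by unfold UU; linarith [tx3.2.1]
    x4 := by unfold UU; rw [hd_comm rx ra]; linarith [tx4.1]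
    y1 := by unfold UU; linarith [ty1.2.1]
    y2 := by unfold UU; rw [hd_comm ry ra]; linarith [ty2.1]
    y3 := by unfold UU; rw [hd_comm ry ra, hd_comm ry rx]; linarith [ty3.1]
    y4 := by unfold UU; rw [hd_comm ry ra]; linarith [ty4.2.1]
    z1 := by unfold UU; rw [hd_comm rb ra]; linarith [tz1.1]
    z2 := by unfold UU; rw [hd_comm rb ra, hd_comm rb rx]; linarith [tz2.1]
    z3 := by unfold UU; rw [hd_comm rb ry, hd_comm rb rx]; linarith [tz3.1]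
    ua1 := ua1
    ua2 := ua2
    ux1 := ux1
    ux2 := ux2
    uy1 := uy1
    uy2 := uy2
    uz1 := uz1
    uz2 := uz2
    k1 := by linarith
    k2 := by linarith
    k3 := by linarith
    k4 := by linarith
    k5 := by linarith
    k6 := by linarith
    k7 := by linarith
    k8 := by linarith
    k9 := by linarith
    k10 := by linarith
    vb1 := by
      have f1 : φ + b1 + b2 + b3 + Real.pi + un rb ry b3 - (φ + b1 + b2 + b3 + Real.pi + 0) =
        un rb ry b3 := by ring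
      have f2 : φ + b1 + b2 + b3 + Real.pi + un rb ry b3 -
        (φ + b1 + b2 + b3 + Real.pi + un rb ra (b1 + b2 + b3)) =
        un rb ry b3 - un rb ra (b1 + b2 + b3) := by ring
      have f3 : φ + b1 + b2 + b3 + Real.pi + un rb ra (b1 + b2 + b3) -
        (φ + b1 + b2 + b3 + Real.pi + 0) = un rb ra (b1 + b2 + b3) := by ring
      rw [f1, f2, f3] at vb1
      rw [hd_comm rb ra, hd_comm rb ry]
      linarith
    vb2 := by
      have f1 : φ + b1 + b2 + b3 + Real.pi + un rb ry b3 - (φ + b1 + b2 + b3 + Real.pi + 0) =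
        un rb ry b3 := by ring
      have f2 : φ + b1 + b2 + b3 + Real.pi + un rb ry b3 -
        (φ + b1 + b2 + b3 + Real.pi + un rb rx (b2 + b3)) =
        un rb ry b3 - un rb rx (b2 + b3) := by ring
      have f3 : φ + b1 + b2 + b3 + Real.pi + un rb rx (b2 + b3) -
        (φ + b1 + b2 + b3 + Real.pi + 0) = un rb rx (b2 + b3) := by ring
      rw [f1, f2, f3] at vb2
      rw [hd_comm rb rx, hd_comm rb ry]
      linarith
    va1 := by
      have f1 : φ + Real.pi + 0 - (φ + Real.pi + -un ra rx b1) = un ra rx b1 := by ring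
      have f2 : φ + Real.pi + 0 - (φ + Real.pi + -un ra rb (b1 + b2 + b3)) =
        un ra rb (b1 + b2 + b3) := by ring
      have f3 : φ + Real.pi + -un ra rb (b1 + b2 + b3) - (φ + Real.pi + -un ra rx b1) =
        un ra rx b1 - un ra rb (b1 + b2 + b3) := by ring
      rw [f1, f2, f3] at va1
      linarith
    va2 := by
      have f1 : φ + Real.pi + 0 - (φ + Real.pi + -un ra rx b1) = un ra rx b1 := by ring
      have f2 : φ + Real.pi + 0 - (φ + Real.pi + -un ra ry (b1 + b2)) =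
        un ra ry (b1 + b2) := by ring
      have f3 : φ + Real.pi + -un ra ry (b1 + b2) - (φ + Real.pi + -un ra rx b1) =
        un ra rx b1 - un ra ry (b1 + b2) := by ring
      rw [f1, f2, f3] at va2
      linarith }

end R35
end E5
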