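import Pool.Agent.Helper35.E5.RQB
import Pool.Agent.Helper90.E5.RQH

/-!
MP_efd95c_co, wheels of type C: row RQ (real data of `q`).
-/

set_option autoImplicit false

open scoped MeasureTheory ENNReal Topology
open Complex

noncomputable section

namespace E5

theorem RQ (hWQ : ST_WQ) : ST_RQ := by
  intro q aq bq H hab h0q
  obtain ⟨φ, b1, b2, b3, e1, e2, e3, e4, P, ⟨g0, ga, gx, gy, gb⟩, l1, l2, l3, l4, l5, l6⟩ :=
    rqh90 hWQ q aq bq H hab h0q
  have R := R35.RQ35 H hab h0q P e1 e2 e3 e4
  exact ⟨φ, b1, b2, b3, e1, e2, e3, e4,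
    { ra0 := P.ra0
      rx0 := P.rx0
      ry0 := P.ry0
      rb0 := P.rb0
      ra2 := P.ra2
      rx2 := P.rx2
      ry2 := P.ry2
      rb2 := P.rb2
      b10 := P.b10
      b20 := P.b20
      b30 := P.b30
      bs := P.bs
      cax2 := P.cax2
      cxy2 := P.cxy2
      cyb2 := P.cyb2
      cay2 := P.cay2
      cxb2 := P.cxb2
      cab2 := P.cab2
      q0ax := P.q0ax
      q0xy := P.q0xy
      q0yb := P.q0yb
      q0ay := P.q0ay
      q0xb := P.q0xb
      q0ab := P.q0ab
      qaxy := P.qaxy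
      qxyb := P.qxyb
      qaxb := P.qaxb
      qayb := P.qayb
      q0 := g0
      qa := ga
      qx := gx
      qy := gy
      qb := gb
      a1 := R.a1
      a2 := R.a2
      a3 := R.a3
      x1 := R.x1
      x2 := R.x2
      x3 := R.x3
      x4 := R.x4
      y1 := R.y1
      y2 := R.y2
      y3 := R.y3
      y4 := R.y4
      z1 := R.z1
      z2 := R.z2
      z3 := R.z3
      ua1 := R.ua1
      ua2 := R.ua2
      ux1 := R.ux1
      ux2 := R.ux2
      uy1 := R.uy1
      uy2 := R.uy2
      uz1 := R.uz1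
      uz2 := R.uz2
      l1 := l1
      l2 := l2
      l3 := l3
      l4 := l4
      l5 := l5
      l6 := l6
      k1 := R.k1
      k2 := R.k2
      k3 := R.k3
      k4 := R.k4
      k5 := R.k5
      k6 := R.k6
      k7 := R.k7
      k8 := R.k8
      k9 := R.k9
      k10 := R.k10
      vb1 := R.vb1
      vb2 := R.vb2
      va1 := R.va1
      va2 := R.va2 }⟩

end E5
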