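import Pool.Agent.Helper71.E5.WStmts2
import Pool.Agent.Helper22.E5.V3
import Pool.Agent.Helper49.E5.TRI
import Pool.Agent.Helper55.E5.WARC

/-!
MP_efd95c_co, wheels of type C: tools for the row RQ (order of the arcs and of the chords at the
vertices, strict quadrilateral inequalities, lemma V3 in polar coordinates).
-/

set_option autoImplicit false

open scoped MeasureTheory ENNReal Topology
open Complex

noncomputable section

namespace E5
namespace R35

/-! ### polar coordinates -/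

theorem hd_comm (r s θ : ℝ) : hd r s θ = hd s r θ := (st_TSYM r s θ).2.1

theorem ch_comm (r s θ : ℝ) : ch r s θ = ch s r θ := (st_TSYM r s θ).1

theorem dist_pol (r s α θ : ℝ) :
    dist ((r : ℂ) * AX.e α) ((s : ℂ) * AX.e (α + θ)) = ch r s θ := by
  rw [dist_eq_norm, we_add55]
  have h1 : (r : ℂ) * AX.e α - (s : ℂ) * (AX.e α * AX.e θ) =
      AX.e α * ((r : ℂ) - (s : ℂ) * AX.e θ) := by ring
  rw [h1, norm_mul, we_norm55, one_mul]
  have h2 : (r : ℂ) - (s : ℂ) * AX.e θ = (starRingEnd ℂ) ((r : ℂ) - (s : ℂ) * AX.e (-θ)) := by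
    rw [map_sub, map_mul, Complex.conj_ofReal, Complex.conj_ofReal, we_conj55, neg_neg]
  rw [h2, Complex.norm_conj, un_norm]

/-- the directions of a chord at both ends -/
theorem dir_pol {r s θ : ℝ} (α : ℝ) (hr : 0 < r) (hs : 0 < s) (h0 : 0 < θ) (hp : θ < Real.pi)
    (h2 : ch r s θ < 2) :
    (s : ℂ) * AX.e (α + θ) - (r : ℂ) * AX.e α =
      ((2 * Real.sin (hd r s θ) : ℝ) : ℂ) * AX.e (α + Real.pi + -un r s θ) ∧
    (r : ℂ) * AX.e α - (s : ℂ) * AX.e (α + θ) =
      ((2 * Real.sin (hd r s θ) : ℝ) : ℂ) * AX.e (α + θ + Real.pi + un s r θ) := by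
  obtain ⟨t1, t2, t3, t4, t5, t6, t7, t8, t9, -⟩ := TRI r s θ hr hs h0 hp h2
  rw [← t2]
  have e1 : (s : ℂ) * AX.e (α + θ) - (r : ℂ) * AX.e α =
      ((ch r s θ : ℝ) : ℂ) * AX.e (α + Real.pi + -un r s θ) := by
    rw [we_add55 (α + Real.pi), we_neg55, we_add55 α θ]
    have h3 : (s : ℂ) * AX.e θ - (r : ℂ) = ((ch r s θ : ℝ) : ℂ) * -AX.e (-un r s θ) := by
      apply Complex.ext
      · rw [Complex.sub_re, Complex.re_ofReal_mul, Complex.re_ofReal_mul, Complex.neg_re, we_re55,
          we_re55, Complex.ofReal_re, Real.cos_neg]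
        linarith
      · rw [Complex.sub_im, Complex.im_ofReal_mul, Complex.im_ofReal_mul, Complex.neg_im, we_im55,
          we_im55, Complex.ofReal_im, Real.sin_neg]
        linarith
    linear_combination AX.e α * h3
  refine ⟨e1, ?_⟩
  have e2 : α + θ + Real.pi + un s r θ = α + Real.pi + -un r s θ + Real.pi := by linarith
  rw [e2, we_neg55]
  linear_combination -e1

theorem hub_pol {r : ℝ} (α : ℝ) (hr : 0 ≤ r) (h2 : r ≤ 2) :
    (0 : ℂ) - (r : ℂ) * AX.e α =
      ((2 * Real.sin (h0 r) : ℝ) : ℂ) * AX.e (α + Real.pi + 0) := by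
  have h3 : 2 * Real.sin (h0 r) = r := by
    unfold h0
    rw [Real.sin_arcsin (by linarith) (by linarith)]
    ring
  rw [h3, add_zero, we_neg55]
  ring

theorem crs_pol (a b s t : ℝ) :
    crs ((a : ℂ) * AX.e s) ((b : ℂ) * AX.e t) = a * b * Real.sin (t - s) := by
  rw [H22.crs_eq22, Complex.re_ofReal_mul, Complex.re_ofReal_mul, Complex.im_ofReal_mul,
    Complex.im_ofReal_mul, we_re55, we_re55, we_im55, we_im55, Real.sin_sub]
  ring

theorem norm_pol {a : ℝ} (s : ℝ) (ha : 0 ≤ a) : ‖(a : ℂ) * AX.e s‖ = a := by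
  rw [norm_mul, we_norm55, mul_one, Complex.norm_real, Real.norm_of_nonneg ha]

theorem dist_sq_pol {a b : ℝ} (s t : ℝ) :
    ‖(a : ℂ) * AX.e s - (b : ℂ) * AX.e t‖ ^ 2 = a ^ 2 + b ^ 2 - 2 * a * b * Real.cos (t - s) := by
  rw [Complex.sq_norm, Complex.normSq_apply, Complex.sub_re, Complex.sub_im,
    Complex.re_ofReal_mul, Complex.re_ofReal_mul, Complex.im_ofReal_mul,
    Complex.im_ofReal_mul, we_re55, we_re55, we_im55, we_im55, Real.cos_sub]
  linear_combination a ^ 2 * Real.sin_sq_add_cos_sq s + b ^ 2 * Real.sin_sq_add_cos_sq t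

/-- `|z| cos (half arc)` -/
theorem fn_pol {d : ℝ} (s : ℝ) (h0 : 0 ≤ d) (h2 : d ≤ Real.pi / 2) :
    H22.fn (((2 * Real.sin d : ℝ) : ℂ) * AX.e s) = 2 * Real.sin d * Real.cos d := by
  have hs : 0 ≤ Real.sin d := Real.sin_nonneg_of_nonneg_of_le_pi h0 (by linarith [Real.pi_pos])
  have hc : 0 ≤ Real.cos d := Real.cos_nonneg_of_mem_Icc ⟨by linarith [Real.pi_pos], h2⟩
  unfold H22.fn
  rw [norm_pol s (by positivity)]
  have h3 : 4 - (2 * Real.sin d) ^ 2 = (2 * Real.cos d) ^ 2 := by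
    nlinarith [Real.sin_sq_add_cos_sq d]
  rw [h3, Real.sqrt_sq (by positivity)]
  ring

/-! ### the angle of a triangle in r-convex position -/


/-- angle `A` between sides with half arcs `β`, `γ`, opposite half arc `α` -/
theorem ang35 {α β γ A : ℝ} (ha : 0 < α) (hb : 0 < β) (hc : 0 < γ) (hA : 0 ≤ A)
    (hA2 : A ≤ Real.pi) (h1 : α < β + γ) (h2 : β < α + γ) (h3 : γ < α + β)
    (h4 : α + β + γ < Real.pi)
    (he : (2 * Real.sin α) ^ 2 = (2 * Real.sin β) ^ 2 + (2 * Real.sin γ) ^ 2 -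
      2 * (2 * Real.sin β) * (2 * Real.sin γ) * Real.cos A) :
    β - γ < A ∧ γ - β < A ∧ A + β + γ < Real.pi := by
  have hsb : 0 < Real.sin β := Real.sin_pos_of_pos_of_lt_pi hb (by linarith)
  have hsc : 0 < Real.sin γ := Real.sin_pos_of_pos_of_lt_pi hc (by linarith)
  have k1 : 0 < Real.sin (α + β - γ) := Real.sin_pos_of_pos_of_lt_pi (by linarith) (by linarith)
  have k2 : 0 < Real.sin (α - β + γ) := Real.sin_pos_of_pos_of_lt_pi (by linarith) (by linarith)
  have k3 : 0 < Real.sin (β + γ - α) := Real.sin_pos_of_pos_of_lt_pi (by linarith) (by linarith)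
  have k4 : 0 < Real.sin (α + β + γ) := Real.sin_pos_of_pos_of_lt_pi (by linarith) (by linarith)
  have f1 : Real.sin (α + β - γ) * Real.sin (α - β + γ) =
      Real.sin α ^ 2 - Real.sin (β - γ) ^ 2 := by
    have e1 : α + β - γ = α + (β - γ) := by ring
    have e2 : α - β + γ = α - (β - γ) := by ring
    rw [e1, e2, Real.sin_add, Real.sin_sub α (β - γ)]
    have := Real.sin_sq_add_cos_sq α
    have := Real.sin_sq_add_cos_sq (β - γ)
    nlinarith
  have f2 : Real.sin (α + β + γ) * Real.sin (β + γ - α) =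
      Real.sin (β + γ) ^ 2 - Real.sin α ^ 2 := by
    have e1 : α + β + γ = (β + γ) + α := by ring
    rw [e1, Real.sin_add (β + γ), Real.sin_sub (β + γ) α]
    have := Real.sin_sq_add_cos_sq α
    have := Real.sin_sq_add_cos_sq (β + γ)
    nlinarith
  have g1 : 2 * Real.sin β * Real.sin γ * (Real.cos (β - γ) - Real.cos A) =
      Real.sin α ^ 2 - Real.sin (β - γ) ^ 2 := by
    rw [Real.cos_sub, Real.sin_sub]
    have h5 := Real.sin_sq_add_cos_sq β
    have h6 := Real.sin_sq_add_cos_sq γ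
    have h7 : Real.cos β ^ 2 = 1 - Real.sin β ^ 2 := by linarith
    have h8 : Real.cos γ ^ 2 = 1 - Real.sin γ ^ 2 := by linarith
    have h9 : (Real.sin β * Real.cos γ - Real.cos β * Real.sin γ) ^ 2 =
        Real.sin β ^ 2 * Real.cos γ ^ 2 + Real.cos β ^ 2 * Real.sin γ ^ 2 -
        2 * Real.sin β * Real.cos γ * Real.cos β * Real.sin γ := by ring
    rw [h9, h7, h8]
    linear_combination (-1 / 4) * he
  have g2 : 2 * Real.sin β * Real.sin γ * (Real.cos (β + γ) + Real.cos A) =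
      Real.sin (β + γ) ^ 2 - Real.sin α ^ 2 := by
    rw [Real.cos_add, Real.sin_add]
    have h5 := Real.sin_sq_add_cos_sq β
    have h6 := Real.sin_sq_add_cos_sq γ
    have h7 : Real.cos β ^ 2 = 1 - Real.sin β ^ 2 := by linarith
    have h8 : Real.cos γ ^ 2 = 1 - Real.sin γ ^ 2 := by linarith
    have h9 : (Real.sin β * Real.cos γ + Real.cos β * Real.sin γ) ^ 2 =
        Real.sin β ^ 2 * Real.cos γ ^ 2 + Real.cos β ^ 2 * Real.sin γ ^ 2 +
        2 * Real.sin β * Real.cos γ * Real.cos β * Real.sin γ := by ring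
    rw [h9, h7, h8]
    linear_combination (1 / 4) * he
  have m1 : Real.cos A < Real.cos (β - γ) := by
    have h5 : 0 < 2 * Real.sin β * Real.sin γ * (Real.cos (β - γ) - Real.cos A) := by
      rw [g1, ← f1]; exact mul_pos k1 k2
    have h6 := pos_of_mul_pos_right h5 (by positivity)
    linarith
  have m2 : Real.cos (Real.pi - (β + γ)) < Real.cos A := by
    have h5 : 0 < 2 * Real.sin β * Real.sin γ * (Real.cos (β + γ) + Real.cos A) := by
      rw [g2, ← f2]; exact mul_pos k4 k3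
    have h6 := pos_of_mul_pos_right h5 (by positivity)
    rw [Real.cos_pi_sub]
    linarith
  refine ⟨?_, ?_, ?_⟩
  · by_contra hn
    push Not at hn
    have := Real.cos_le_cos_of_nonneg_of_le_pi hA (by linarith) hn
    linarith
  · by_contra hn
    push Not at hn
    have h7 := Real.cos_le_cos_of_nonneg_of_le_pi hA (by linarith) hn
    have e : γ - β = -(β - γ) := by ring
    rw [e, Real.cos_neg] at h7
    linarith
  · by_contra hn
    push Not at hn
    have h7 := Real.cos_le_cos_of_nonneg_of_le_pi (x := Real.pi - (β + γ)) (y := A)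
      (by linarith) hA2 (by linarith)
    linarith

/-- the same with points -/
theorem tri35 {u v w : ℂ} {α β γ s t : ℝ} (hv : v - u = ((2 * Real.sin β : ℝ) : ℂ) * AX.e s)
    (hw : w - u = ((2 * Real.sin γ : ℝ) : ℂ) * AX.e t) (hd : dist v w = 2 * Real.sin α)
    (ha : 0 < α) (hb : 0 < β) (hc : 0 < γ) (hA : 0 ≤ t - s)
    (hA2 : t - s ≤ Real.pi) (hR : RC α β γ) :
    β - γ < t - s ∧ γ - β < t - s ∧ t - s + β + γ < Real.pi := by
  obtain ⟨h1, h2, h3, h4⟩ := hR
  apply ang35 ha hb hc hA hA2 h1 h2 h3 h4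
  rw [← hd, dist_eq_norm]
  have e : v - w = (v - u) - (w - u) := by ring
  rw [e, hv, hw, dist_sq_pol]

theorem RC_rot {x y z : ℝ} (h : RC x y z) : RC y z x := by
  obtain ⟨h1, h2, h3, h4⟩ := h
  exact ⟨by linarith, by linarith, by linarith, by linarith⟩

theorem RC_swap {x y z : ℝ} (h : RC x y z) : RC y x z := by
  obtain ⟨h1, h2, h3, h4⟩ := h
  exact ⟨by linarith, by linarith, by linarith, by linarith⟩

end R35
end E5
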