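import Pool.Agent.Helper35.E5.FULL

set_option autoImplicit false

open scoped MeasureTheory ENNReal Topology
open Complex

namespace E5

namespace H35

theorem HD_T {n : ℕ} {c : Fin n → ℂ} {M : ℕ} {g : ℤ → Fin n} {a b : ℤ → ℝ} (h : HD c M g a b)
    (j : ℤ) : (AX.T 1 c (g j)).Nonempty :=
  ⟨a j, (h.mem j (a j) le_rfl (by linarith [Real.pi_pos])).2 (h.le j)⟩

/-- The circle of a slack index does not matter. -/
theorem slack_all {n : ℕ} {p : Fin n → ℂ} {k : Fin n} (hint : (interior (AX.K 1 p)).Nonempty)
    (hT : AX.T 1 p k = ∅) {x : ℂ} (hx : ∀ i, i ≠ k → dist x (p i) ≤ 1) : dist x (p k) ≤ 1 := by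
  by_contra hx1
  push Not at hx1
  obtain ⟨z, hz⟩ := hint
  have hzk := int_lt hz k
  have hcont : Continuous (fun t : ℝ => dist (AffineMap.lineMap z x t : ℂ) (p k)) := by
    fun_prop
  have hiv := intermediate_value_Icc (zero_le_one) hcont.continuousOn
  have h1 : (1 : ℝ) ∈ Set.Icc (dist (AffineMap.lineMap z x (0 : ℝ) : ℂ) (p k))
      (dist (AffineMap.lineMap z x (1 : ℝ) : ℂ) (p k)) := by
    rw [AffineMap.lineMap_apply_zero, AffineMap.lineMap_apply_one]
    exact ⟨hzk.le, hx1.le⟩
  obtain ⟨t, ht, ht1⟩ := hiv h1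
  simp only at ht1
  set y : ℂ := AffineMap.lineMap z x t with hy
  have hyK : y ∈ AX.K 1 p := by
    rw [mem_K]
    intro i
    by_cases hi : i = k
    · rw [hi, ht1]
    · have h2 : y ∈ Metric.closedBall (p i) 1 := by
        refine (convex_closedBall (p i) 1).segment_subset
          (Metric.mem_closedBall.2 (int_lt hz i).le) (Metric.mem_closedBall.2 (hx i hi)) ?_
        rw [segment_eq_image_lineMap]
        exact ⟨t, ht, rfl⟩
      exact Metric.mem_closedBall.1 h2
  have h3 : Complex.arg (y - p k) ∈ AX.T 1 p k := by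
    rw [mem_T]
    have h4 : ‖y - p k‖ = 1 := by rw [← dist_eq_norm]; exact ht1
    have h5 : p k + AX.e (Complex.arg (y - p k)) = y := by
      unfold AX.e
      have h3 := Complex.norm_mul_exp_arg_mul_I (y - p k)
      rw [h4] at h3
      simp only [Complex.ofReal_one, one_mul] at h3
      rw [h3]
      ring
    rw [h5]
    exact hyK
  rw [hT] at h3
  exact h3

theorem slack_lt {n : ℕ} {p : Fin n → ℂ} {k : Fin n} (hne : (AX.K 1 p).Nonempty)
    (hT : AX.T 1 p k = ∅) : ∃ δ > 0, ∀ x ∈ AX.K 1 p, dist x (p k) ≤ 1 - δ := by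
  have hcomp : IsCompact (AX.K 1 p) := by
    refine Metric.isCompact_of_isClosed_isBounded (K_closed p)
      ((Metric.isBounded_closedBall (x := p k) (r := 1)).subset fun x hx => ?_)
    exact Metric.mem_closedBall.2 ((mem_K p x).1 hx k)
  have hcont : Continuous (fun x : ℂ => dist x (p k)) := by fun_prop
  obtain ⟨y, hy, hmax⟩ := hcomp.exists_isMaxOn hne hcont.continuousOn
  have h1 : dist y (p k) ≤ 1 := (mem_K p y).1 hy k
  have h2 : dist y (p k) ≠ 1 := by
    intro h3
    have h4 : ‖y - p k‖ = 1 := by rw [← dist_eq_norm]; exact h3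
    have h5 : Complex.arg (y - p k) ∈ AX.T 1 p k := by
      rw [mem_T]
      have h6 : p k + AX.e (Complex.arg (y - p k)) = y := by
        unfold AX.e
        have h3 := Complex.norm_mul_exp_arg_mul_I (y - p k)
        rw [h4] at h3
        simp only [Complex.ofReal_one, one_mul] at h3
        rw [h3]
        ring
      rw [h6]
      exact hy
    rw [hT] at h5
    exact h5
  refine ⟨1 - dist y (p k), by
    have := lt_of_le_of_ne h1 h2
    linarith, fun x hx => ?_⟩
  have := isMaxOn_iff.1 hmax x hx
  linarith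

/-- The intersection does not change. -/
theorem slack_K {n : ℕ} {p : Fin n → ℂ} {k : Fin n} (hint : (interior (AX.K 1 p)).Nonempty)
    (hT : AX.T 1 p k = ∅) {δ : ℝ} (hδ : ∀ x ∈ AX.K 1 p, dist x (p k) ≤ 1 - δ) {v : ℂ}
    (hv : ‖v‖ < δ) : AX.K 1 (Function.update p k (p k + v)) = AX.K 1 p := by
  have key : ∀ x ∈ AX.K 1 p, dist x (p k + v) < 1 := by
    intro x hx
    have h1 := dist_triangle x (p k) (p k + v)
    have h2 : dist (p k) (p k + v) = ‖v‖ := by
      rw [dist_comm, dist_eq_norm, add_sub_cancel_left]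
    have h3 := hδ x hx
    linarith
  ext x
  constructor
  · intro hx
    have h1 : ∀ i, i ≠ k → dist x (p i) ≤ 1 := by
      intro i hi
      have := (mem_K _ x).1 hx i
      rwa [Function.update_of_ne hi] at this
    rw [mem_K]
    intro i
    by_cases hi : i = k
    · rw [hi]
      exact slack_all hint hT h1
    · exact h1 i hi
  · intro hx
    rw [mem_K]
    intro i
    by_cases hi : i = k
    · rw [hi, Function.update_self]
      exact (key x hx).le
    · rw [Function.update_of_ne hi]
      exact (mem_K p x).1 hx i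

end H35

open H35

theorem SLACK : ST_SLACK := by
  intro n p M g a b k v h hT
  obtain ⟨δ, hδ, hδ2⟩ := slack_lt (h.int.mono interior_subset) hT
  have hgk : ∀ j, g j ≠ k := by
    intro j hj
    have := HD_T h j
    rw [hj, hT] at this
    exact Set.not_nonempty_empty this
  -- the new point stays away from the others
  have hinj : ∀ᶠ s : ℝ in 𝓝 (0 : ℝ), ∀ i, i ≠ k → p k + (s : ℂ) * v ≠ p i := by
    rw [Filter.eventually_all]
    intro i
    by_cases hi : i = k
    · exact Filter.Eventually.of_forall fun s h => absurd hi h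
    · have hc : Continuous (fun s : ℝ => p k + (s : ℂ) * v) := by fun_prop
      have h0 : (fun s : ℝ => p k + (s : ℂ) * v) 0 ≠ p i := by
        simp only [Complex.ofReal_zero, zero_mul, add_zero]
        exact fun e => hi (h.inj e.symm)
      filter_upwards [hc.continuousAt.eventually_ne h0] with s hs _
      exact hs
  have hsm : ∀ᶠ s : ℝ in 𝓝 (0 : ℝ), ‖(s : ℂ) * v‖ < δ := by
    have hc : Continuous (fun s : ℝ => ‖(s : ℂ) * v‖) := by fun_prop
    have h0 : (fun s : ℝ => ‖(s : ℂ) * v‖) 0 < δ := by simpa using hδ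
    exact hc.continuousAt.eventually_lt continuousAt_const h0
  filter_upwards [hinj, hsm] with s hs1 hs2
  have hK := slack_K h.int hT hδ2 hs2
  have hTi : ∀ i, i ≠ k → AX.T 1 (Function.update p k (p k + (s : ℂ) * v)) i = AX.T 1 p i := by
    intro i hi
    ext θ
    rw [mem_T, mem_T, hK, Function.update_of_ne hi]
  have hTk : AX.T 1 (Function.update p k (p k + (s : ℂ) * v)) k = ∅ := by
    rw [Set.eq_empty_iff_forall_notMem]
    intro θ hθ
    rw [mem_T, hK, Function.update_self] at hθ
    have h1 := hδ2 _ hθ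
    have h2 := dist_triangle (p k + (s : ℂ) * v + AX.e θ) (p k) (p k + (s : ℂ) * v)
    have h3 : dist (p k) (p k + (s : ℂ) * v) = ‖(s : ℂ) * v‖ := by
      rw [dist_comm, dist_eq_norm, add_sub_cancel_left]
    have h4 : dist (p k + (s : ℂ) * v + AX.e θ) (p k + (s : ℂ) * v) = 1 := by
      rw [dist_eq_norm, add_sub_cancel_left, norm_e]
    linarith
  refine ⟨⟨?_, ?_, h.two, h.gper, h.ginj, ?_, h.aper, h.bper, h.le, h.ltpi, ?_, ?_, ?_⟩, ?_⟩
  · intro i j hij
    by_cases hi : i = k
    · by_cases hj : j = k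
      · rw [hi, hj]
      · rw [hi, Function.update_self, Function.update_of_ne hj] at hij
        exact absurd hij (hs1 j hj)
    · by_cases hj : j = k
      · rw [hj, Function.update_self, Function.update_of_ne hi] at hij
        exact absurd hij.symm (hs1 i hi)
      · rw [Function.update_of_ne hi, Function.update_of_ne hj] at hij
        exact h.inj hij
  · rw [hK]
    exact h.int
  · intro i hi
    by_cases hik : i = k
    · rw [hik, hTk] at hi
      exact absurd hi Set.not_nonempty_empty
    · rw [hTi i hik] at hi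
      exact h.cov i hi
  · intro j θ h1 h2
    rw [hTi _ (hgk j)]
    exact h.mem j θ h1 h2
  · intro j
    rw [Function.update_of_ne (hgk j), Function.update_of_ne (hgk (j + 1))]
    exact h.step j
  · intro j
    rw [Function.update_of_ne (hgk j), Function.update_of_ne (hgk (j + 1))]
    exact h.corner j
  · unfold per
    rw [hK]

end E5
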